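import Pool.Agent.L5helper35.LPS.Gad

/-! The local inequality. -/

set_option autoImplicit false

namespace Pool.Agent.L5helper35.LPS

open Finset Real

variable {Q : Type} [Fintype Q] [DecidableEq Q] [Nonempty Q]

/-- First entropy inequality, event on the functions. -/
theorem ent1 (α : (Q → Bool) → ℝ) (β : Q × Bool → ℝ) (hα : ∀ f, 0 ≤ α f) (hβ : ∀ x, 0 ≤ β x)
    (E : (Q → Bool) → Prop) [DecidablePred E] (s q : ℝ) (hs : 0 ≤ s)
    (hE : ∀ x : Q × Bool, ∑ f, (if E f then 2 * nQ Q * P f x else 0) ≤ q) :
    ∑ f, ∑ x, P f x * negMulLog (α f * β x) +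
      s * ∑ f, ∑ x, (if E f then P f x * (α f * β x) else 0) -
      log (1 + (exp s - 1) * q) * ∑ f, ∑ x, P f x * (α f * β x) ≤
      ∑ x, 1 / (2 * nQ Q) * negMulLog ((∑ f, 2 * nQ Q * P f x * α f) * β x) :=
  kernel_event P (2 * nQ Q) (by have := nQ_pos (Q := Q); positivity) P_nonneg sum_P_f α β hα hβ E
    s q hs hE

/-- Second entropy inequality, event on the points. -/
theorem ent2 (α : (Q → Bool) → ℝ) (β : Q × Bool → ℝ) (hα : ∀ f, 0 ≤ α f) (hβ : ∀ x, 0 ≤ β x)
    (E : Q × Bool → Prop) [DecidablePred E] (s q : ℝ) (hs : 0 ≤ s)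
    (hE : ∀ f : Q → Bool, ∑ x, (if E x then nG Q * P f x else 0) ≤ q) :
    ∑ f, ∑ x, P f x * negMulLog (α f * β x) +
      s * ∑ f, ∑ x, (if E x then P f x * (α f * β x) else 0) -
      log (1 + (exp s - 1) * q) * ∑ f, ∑ x, P f x * (α f * β x) ≤
      ∑ f, 1 / nG Q * negMulLog (α f * ∑ x, nG Q * P f x * β x) := by
  have h := kernel_event (fun (x : Q × Bool) (f : Q → Bool) => P f x) (nG Q) nG_pos
    (fun x f => P_nonneg f x) (fun f => sum_P_one f) β α hβ hα E s q hs hE
  rw [Finset.sum_comm, Finset.sum_comm (f := fun x f => (if E x then P f x * (β x * α f) else 0)),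
    Finset.sum_comm (f := fun x f => P f x * (β x * α f))] at h
  simpa only [mul_comm (β _) (α _), mul_comm (∑ _, _) (α _)] using h

/-- The local inequality. -/
theorem local_ineq (α : (Q → Bool) → ℝ) (β : Q × Bool → ℝ) (hα : ∀ f, 0 ≤ α f)
    (hβ : ∀ x, 0 ≤ β x) (lam η δ Λ : ℝ) (hl0 : 0 < lam) (hl1 : lam < 1) (hη : 0 < η)
    (hη1 : η ≤ 1 / 2) (hδ : 0 < δ) (hΛ : 0 ≤ Λ) (h1 : Λ ≤ lam * (η / (16 * δ) - log 3))
    (h2 : Λ ≤ (1 - lam) * ((1 - 2 * η) * log (δ * nQ Q) - log 2)) :
    ∑ f, ∑ x, P f x * negMulLog (α f * β x) +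
      Λ * (∑ f, ∑ x, P f x * (α f * β x) - 16 / η * ∑ f, ∑ x, P' f x * (α f * β x)) ≤
    lam * ∑ x, 1 / (2 * nQ Q) * negMulLog ((∑ f, 2 * nQ Q * P f x * α f) * β x) +
      (1 - lam) * ∑ f, 1 / nG Q * negMulLog (α f * ∑ x, nG Q * P f x * β x) := by
  have hG := nG_pos (Q := Q)
  have hQ := nQ_pos (Q := Q)
  set R1 := ∑ x, 1 / (2 * nQ Q) * negMulLog ((∑ f, 2 * nQ Q * P f x * α f) * β x) with hR1
  set R2 := ∑ f, 1 / nG Q * negMulLog (α f * ∑ x, nG Q * P f x * β x) with hR2
  set S0 := ∑ f, ∑ x, P f x * negMulLog (α f * β x) with hS0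
  set Eo := ∑ f, ∑ x, P f x * (α f * β x) with hEo
  set Ei := ∑ f, ∑ x, P' f x * (α f * β x) with hEi
  have hEo0 : 0 ≤ Eo := Finset.sum_nonneg fun f _ => Finset.sum_nonneg fun x _ =>
    mul_nonneg (P_nonneg f x) (mul_nonneg (hα f) (hβ x))
  have hEi0 : 0 ≤ Ei := Finset.sum_nonneg fun f _ => Finset.sum_nonneg fun x _ =>
    mul_nonneg (P'_nonneg f x) (mul_nonneg (hα f) (hβ x))
  -- the trivial entropy inequalities
  have hr1 : S0 ≤ R1 := by
    have := ent1 α β hα hβ (fun _ => False) 0 0 le_rfl (fun x => by simp)
    simp only [exp_zero, sub_self, zero_mul, add_zero, log_one, sub_zero] at this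
    exact this
  have hr2 : S0 ≤ R2 := by
    have := ent2 α β hα hβ (fun _ => False) 0 0 le_rfl (fun x => by simp)
    simp only [exp_zero, sub_self, zero_mul, add_zero, log_one, sub_zero] at this
    exact this
  have hK : 0 < 16 / η := by positivity
  rcases le_or_gt Eo (16 / η * Ei) with hT | hT
  · have h3 : Λ * (Eo - 16 / η * Ei) ≤ 0 := mul_nonpos_of_nonneg_of_nonpos hΛ (by linarith)
    nlinarith
  have hEo1 : 0 < Eo := lt_of_le_of_lt (by positivity) hT
  -- sums
  set S := ∑ x, β x with hS
  set Out : (Q → Bool) → ℝ := fun f => ∑ w, β (w, !(f w)) with hOut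
  set In : (Q → Bool) → ℝ := fun f => ∑ w, β (w, f w) with hIn
  have hOI : ∀ f, Out f + In f = S := by
    intro f
    simp only [hOut, hIn, hS]
    rw [← Finset.sum_add_distrib, Fintype.sum_prod_type]
    refine Finset.sum_congr rfl fun w _ => ?_
    rw [Fintype.sum_bool]
    cases f w <;> simp [add_comm]
  have hIn0 : ∀ f, 0 ≤ In f := fun f => Finset.sum_nonneg fun w _ => hβ _
  have hOut0 : ∀ f, 0 ≤ Out f := fun f => Finset.sum_nonneg fun w _ => hβ _
  have hPf : ∀ f, ∑ x, P f x * (α f * β x) = 1 / (nG Q * nQ Q) * (α f * Out f) := by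
    intro f
    rw [sum_P f (fun x => α f * β x), ← Finset.mul_sum]
  have hPf' : ∀ f, ∑ x, P' f x * (α f * β x) = 1 / (nG Q * nQ Q) * (α f * In f) := by
    intro f
    rw [sum_P' f (fun x => α f * β x), ← Finset.mul_sum]
  have hS1 : 0 < S := by
    by_contra hc
    have hS2 : S ≤ 0 := not_lt.1 hc
    have : Eo ≤ 0 := by
      rw [hEo]
      refine Finset.sum_nonpos fun f _ => ?_
      rw [hPf f]
      have h5 : Out f ≤ 0 := by linarith [hOI f, hIn0 f]
      have h6 : Out f = 0 := le_antisymm h5 (hOut0 f)
      rw [h6]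
      simp
    linarith
  clear_value S
  set SL := ∑ x, (if β x < δ * S then β x else 0) with hSL
  have hδS : 0 < δ * S := by positivity
  rcases le_or_gt (η * S) SL with hC | hC
  · -- Case 1: much light mass
    set s := η / (8 * δ) with hs
    have hs0 : 0 < s := by positivity
    have hbad : ((univ.filter fun f : Q → Bool => In f < η / 8 * S).card : ℝ) ≤
        nG Q * exp (-s) := by
      have hb := bad_card (Q := Q)
        (fun w c => if β (w, c) < δ * S then β (w, c) / (δ * S) else 0)
        (fun w c => by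
          split_ifs
          · exact div_nonneg (hβ _) hδS.le
          · exact le_rfl)
        (fun w c => by
          split_ifs with hh
          · exact (div_le_one hδS).2 hh.le
          · exact zero_le_one) s
      have hsub : (univ.filter fun f : Q → Bool => In f < η / 8 * S).card ≤
          (univ.filter fun f : Q → Bool =>
            ∑ w, (fun w c => if β (w, c) < δ * S then β (w, c) / (δ * S) else 0) w (f w) ≤
              s).card := by
        refine card_le_card fun f hf => ?_
        rw [mem_filter] at hf ⊢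
        refine ⟨mem_univ _, ?_⟩
        have h5 : ∑ w, (if β (w, f w) < δ * S then β (w, f w) / (δ * S) else 0) ≤
            In f / (δ * S) := by
          simp only [hIn]
          rw [Finset.sum_div]
          refine Finset.sum_le_sum fun w _ => ?_
          split_ifs
          · exact le_rfl
          · exact div_nonneg (hβ _) hδS.le
        refine h5.trans ?_
        rw [div_le_iff₀ hδS]
        have h6 : s * (δ * S) = η / 8 * S := by
          rw [hs]
          field_simp
        rw [h6]
        exact hf.2.le
      have hsum : (∑ w, ∑ c, (fun w c => if β (w, c) < δ * S then β (w, c) / (δ * S) else 0) w c) =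
          SL / (δ * S) := by
        rw [hSL, Finset.sum_div, Fintype.sum_prod_type]
        refine Finset.sum_congr rfl fun w _ => Finset.sum_congr rfl fun c _ => ?_
        dsimp only
        split_ifs
        · rfl
        · simp
      rw [hsum] at hb
      refine (Nat.cast_le.2 hsub).trans (hb.trans ?_)
      refine mul_le_mul_of_nonneg_left (exp_le_exp.2 ?_) hG.le
      have h7 : η / δ ≤ SL / (δ * S) := by
        rw [div_le_div_iff₀ hδ hδS]
        nlinarith
      have h8 : η / δ = 8 * s := by
        rw [hs]
        field_simp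
      linarith
    have hev := ent1 α β hα hβ (fun f => In f < η / 8 * S) s (2 * exp (-s)) hs0.le (fun x => by
      have h5 : ∀ f : Q → Bool, (if In f < η / 8 * S then 2 * nQ Q * P f x else 0) ≤
          (if In f < η / 8 * S then 2 / nG Q else 0) := by
        intro f
        split_ifs
        · unfold P
          split_ifs
          · apply le_of_eq
            field_simp
          · simp only [mul_zero]
            positivity
        · exact le_rfl
      refine (Finset.sum_le_sum fun f _ => h5 f).trans ?_
      rw [← Finset.sum_filter, Finset.sum_const, nsmul_eq_mul]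
      have h6 := mul_le_mul_of_nonneg_right hbad (by positivity : (0 : ℝ) ≤ 2 / nG Q)
      refine h6.trans (le_of_eq ?_)
      field_simp)
    have hlog : log (1 + (exp s - 1) * (2 * exp (-s))) ≤ log 3 := by
      have h5 : 1 + (exp s - 1) * (2 * exp (-s)) = 3 - 2 * exp (-s) := by
        have : exp s * exp (-s) = 1 := by rw [← exp_add]; simp
        linear_combination 2 * this
      rw [h5]
      have h6 : exp (-s) ≤ 1 := by
        rw [exp_le_one_iff]; linarith
      exact log_le_log (by linarith) (by linarith [exp_pos (-s)])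
    set Eb := ∑ f, ∑ x, (if In f < η / 8 * S then P f x * (α f * β x) else 0) with hEb
    -- the good part
    have hgood : Eo - Eb ≤ 8 / η * Ei := by
      rw [hEo, hEb, hEi, Finset.mul_sum, ← Finset.sum_sub_distrib]
      refine Finset.sum_le_sum fun f _ => ?_
      by_cases hf : In f < η / 8 * S
      · simp only [if_pos hf, sub_self]
        rw [hPf' f]
        have := hIn0 f
        have := hα f
        positivity
      · simp only [if_neg hf, Finset.sum_const_zero, sub_zero]
        rw [hPf f, hPf' f]
        have h5 : Out f ≤ 8 / η * In f := by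
          have h6 := hOI f
          have h7 := hIn0 f
          have h8 : η / 8 * S ≤ In f := not_lt.1 hf
          have h9 : S ≤ 8 / η * In f := by
            rw [div_mul_eq_mul_div, le_div_iff₀ hη]
            linarith
          linarith
        have h6 : 0 ≤ 1 / (nG Q * nQ Q) * α f := mul_nonneg (by positivity) (hα f)
        have := mul_le_mul_of_nonneg_left h5 h6
        linarith
    have hEb2 : Eo / 2 ≤ Eb := by
      have : 8 / η * Ei = (16 / η * Ei) / 2 := by ring
      linarith
    have h5 : s * (Eo / 2) ≤ s * Eb := mul_le_mul_of_nonneg_left hEb2 hs0.le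
    have h6 := mul_le_mul_of_nonneg_right hlog hEo0
    have h7 : S0 + (s / 2 - log 3) * Eo ≤ R1 := by linarith
    have h8 : Λ ≤ lam * (s / 2 - log 3) := by
      refine h1.trans (le_of_eq ?_)
      rw [hs]
      congr 2
      field_simp
      norm_num
    have h9 := mul_le_mul_of_nonneg_left h7 hl0.le
    have h10 := mul_le_mul_of_nonneg_left hr2 (by linarith : (0 : ℝ) ≤ 1 - lam)
    have h11 := mul_le_mul_of_nonneg_right h8 hEo0
    have h12 : Λ * (Eo - 16 / η * Ei) ≤ Λ * Eo := by
      refine mul_le_mul_of_nonneg_left ?_ hΛ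
      have : 0 ≤ 16 / η * Ei := by positivity
      linarith
    linarith
  · -- Case 2: much heavy mass
    have hlog0 : 0 < log (δ * nQ Q) := by
      have h5 : 0 ≤ (1 - 2 * η) * log (δ * nQ Q) - log 2 := by
        by_contra hc
        have := mul_neg_of_pos_of_neg (by linarith : (0 : ℝ) < 1 - lam) (not_le.1 hc)
        linarith
      have h6 : 0 < log 2 := log_pos (by norm_num)
      by_contra hc
      have := mul_nonpos_of_nonneg_of_nonpos (by linarith : (0 : ℝ) ≤ 1 - 2 * η) (not_lt.1 hc)
      linarith
    have hδQ : 0 < δ * nQ Q := by positivity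
    set s := log (δ * nQ Q) with hs
    have hheavy : ((univ.filter fun x : Q × Bool => ¬ β x < δ * S).card : ℝ) * (δ * S) ≤ S := by
      rw [← nsmul_eq_mul]
      refine (Finset.card_nsmul_le_sum _ β _ ?_).trans ?_
      · intro x hx
        exact not_lt.1 (mem_filter.1 hx).2
      · exact (Finset.sum_le_sum_of_subset_of_nonneg (filter_subset _ _)
          fun x _ _ => hβ x).trans hS.ge
    have hheavy2 : ((univ.filter fun x : Q × Bool => ¬ β x < δ * S).card : ℝ) ≤ 1 / δ := by
      rw [le_div_iff₀ hδ]
      have : ((univ.filter fun x : Q × Bool => ¬ β x < δ * S).card : ℝ) * δ * S ≤ 1 * S := by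
        linarith
      exact le_of_mul_le_mul_right this hS1
    have hev := ent2 α β hα hβ (fun x => ¬ β x < δ * S) s (1 / (δ * nQ Q)) hlog0.le (fun f => by
      have h5 : ∀ x : Q × Bool, (if ¬ β x < δ * S then nG Q * P f x else 0) ≤
          (if ¬ β x < δ * S then 1 / nQ Q else 0) := by
        intro x
        split_ifs
        · exact le_rfl
        · unfold P
          split_ifs
          · apply le_of_eq
            field_simp
          · simp only [mul_zero]
            positivity
      refine (Finset.sum_le_sum fun x _ => h5 x).trans ?_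
      rw [← Finset.sum_filter, Finset.sum_const, nsmul_eq_mul]
      have h6 := mul_le_mul_of_nonneg_right hheavy2 (by positivity : (0 : ℝ) ≤ 1 / nQ Q)
      refine h6.trans (le_of_eq ?_)
      field_simp)
    have hlog : log (1 + (exp s - 1) * (1 / (δ * nQ Q))) ≤ log 2 := by
      rw [hs, exp_log hδQ]
      have h5 : 1 + (δ * nQ Q - 1) * (1 / (δ * nQ Q)) = 2 - 1 / (δ * nQ Q) := by
        field_simp
        ring
      have h6 : 1 ≤ δ * nQ Q := by
        by_contra hc
        have := log_nonpos hδQ.le (not_le.1 hc).le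
        linarith
      have h7 : 1 / (δ * nQ Q) ≤ 1 := by
        rw [div_le_one hδQ]; exact h6
      have h8 : 0 < 1 / (δ * nQ Q) := by positivity
      rw [h5]
      exact log_le_log (by linarith) (by linarith)
    set Eh := ∑ f, ∑ x, (if ¬ β x < δ * S then P f x * (α f * β x) else 0) with hEh
    have hlight : Eo - Eh ≤ η * (Eo + Ei) := by
      rw [hEo, hEh, hEi, ← Finset.sum_add_distrib, Finset.mul_sum, ← Finset.sum_sub_distrib]
      refine Finset.sum_le_sum fun f _ => ?_
      rw [hPf' f]
      have e1 : ∑ x, P f x * (α f * β x) - ∑ x, (if ¬ β x < δ * S then P f x * (α f * β x) else 0)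
          = ∑ x, P f x * (α f * (if β x < δ * S then β x else 0)) := by
        rw [← Finset.sum_sub_distrib]
        refine Finset.sum_congr rfl fun x _ => ?_
        by_cases hx : β x < δ * S
        · simp [hx]
        · simp [hx]
      rw [e1, hPf f, sum_P f (fun x => α f * (if β x < δ * S then β x else 0)), ← Finset.mul_sum]
      have h5 : ∑ w, (if β (w, !(f w)) < δ * S then β (w, !(f w)) else 0) ≤ SL := by
        rw [hSL, Fintype.sum_prod_type]
        refine Finset.sum_le_sum fun w _ => ?_
        rw [Fintype.sum_bool]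
        have hnn : ∀ c, 0 ≤ (if β (w, c) < δ * S then β (w, c) else 0) := by
          intro c
          split_ifs
          · exact hβ _
          · exact le_rfl
        cases f w
        · simp only [Bool.not_false]
          linarith [hnn false]
        · simp only [Bool.not_true]
          linarith [hnn true]
      have h6 : ∑ w, (if β (w, !(f w)) < δ * S then β (w, !(f w)) else 0) ≤
          η * (Out f + In f) := by
        rw [hOI f]
        linarith
      have h7 : 0 ≤ 1 / (nG Q * nQ Q) * α f := mul_nonneg (by positivity) (hα f)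
      have := mul_le_mul_of_nonneg_left h6 h7
      linarith
    have hEiEo : Ei ≤ Eo := by
      have h5 : Ei ≤ 16 / η * Ei := by
        have : 1 ≤ 16 / η := by
          rw [le_div_iff₀ hη]; linarith
        nlinarith
      linarith
    have hEh2 : (1 - 2 * η) * Eo ≤ Eh := by
      have := mul_le_mul_of_nonneg_left hEiEo hη.le
      linarith
    have h5 : s * ((1 - 2 * η) * Eo) ≤ s * Eh := mul_le_mul_of_nonneg_left hEh2 hlog0.le
    have h6 := mul_le_mul_of_nonneg_right hlog hEo0
    have h7 : S0 + ((1 - 2 * η) * s - log 2) * Eo ≤ R2 := by linarith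
    have h9 := mul_le_mul_of_nonneg_left h7 (by linarith : (0 : ℝ) ≤ 1 - lam)
    have h10 := mul_le_mul_of_nonneg_left hr1 hl0.le
    have h11 := mul_le_mul_of_nonneg_right h2 hEo0
    have h12 : Λ * (Eo - 16 / η * Ei) ≤ Λ * Eo := by
      refine mul_le_mul_of_nonneg_left ?_ hΛ
      have : 0 ≤ 16 / η * Ei := by positivity
      linarith
    linarith

end Pool.Agent.L5helper35.LPS
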