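import Pool.Agent.L5helper35.LPS.Tens
import Pool.Agent.L5helper35.LPS.Loc

/-! The number of pieces of a nonnegative factorisation. -/

set_option autoImplicit false

namespace Pool.Agent.L5helper35.LPS

open Finset Real

section
variable {A B : Type} [Fintype A] [Fintype B] (P P' : A → B → ℝ)

theorem Zk_le_one (hP : ∀ a b, 0 ≤ P a b) (hP1 : ∑ a, ∑ b, P a b = 1) (t : ℕ)
    (M : (Fin t → A) → (Fin t → B) → ℝ) (h : ∀ g y, M g y ≤ 1) : Zk P t M ≤ 1 := by
  have h1 : ∀ t : ℕ, Zk P t (fun _ _ => 1) = 1 := by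
    intro t
    induction t with
    | zero => rfl
    | succ t ih => unfold Zk; simp [ih, hP1]
  rw [← h1 t]
  exact Zk_mono P hP t _ _ h

/-- From the inequality for rank one pieces to sums of pieces. -/
theorem pieces {ι : Type} [Fintype ι] (hP : ∀ a b, 0 ≤ P a b) (hP1 : ∑ a, ∑ b, P a b = 1)
    (K Λ : ℝ) (t : ℕ)
    (T : ∀ (u : (Fin t → A) → ℝ) (v : (Fin t → B) → ℝ), (∀ g, 0 ≤ u g) → (∀ y, 0 ≤ v y) →
      Zk P t (fun g y => negMulLog (u g * v y)) +
        Λ * (t * Zk P t (fun g y => u g * v y) - K * OS P P' t (fun g y => u g * v y)) ≤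
      negMulLog (Zk P t (fun g y => u g * v y)))
    (c : ι → ℝ) (hc : ∀ j, 0 ≤ c j) (u : ι → (Fin t → A) → ℝ) (v : ι → (Fin t → B) → ℝ)
    (hu0 : ∀ j g, 0 ≤ u j g) (hu1 : ∀ j g, u j g ≤ 1) (hv0 : ∀ j y, 0 ≤ v j y)
    (hv1 : ∀ j y, v j y ≤ 1) (M : (Fin t → A) → (Fin t → B) → ℝ)
    (hM : ∀ g y, M g y = ∑ j, c j * (u j g * v j y)) (hZ : 0 < Zk P t M) :
    Zk P t M * exp (Λ * (t - K * (OS P P' t M / Zk P t M))) ≤ ∑ j, c j := by
  have hMf : M = fun g y => ∑ j, c j * (u j g * v j y) := by
    funext g y; exact hM g y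
  set z : ι → ℝ := fun j => Zk P t (fun g y => u j g * v j y) with hz
  set o : ι → ℝ := fun j => OS P P' t (fun g y => u j g * v j y) with ho
  have hz0 : ∀ j, 0 ≤ z j := fun j => Zk_nonneg P hP t _ fun g y => mul_nonneg (hu0 _ _) (hv0 _ _)
  have hZs : Zk P t M = ∑ j, c j * z j := by
    rw [hMf, Zk_sum P univ t (fun j g y => c j * (u j g * v j y))]
    exact Finset.sum_congr rfl fun j _ => Zk_mul P t _ _
  have hOs : OS P P' t M = ∑ j, c j * o j := by
    rw [hMf, OS_sum P P' univ t (fun j g y => c j * (u j g * v j y))]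
    exact Finset.sum_congr rfl fun j _ => OS_mul P P' t _ _
  set Z := Zk P t M with hZd
  set O := OS P P' t M with hOd
  set C := ∑ j, c j with hC
  have hC0 : 0 < C := by
    have h1 : Z ≤ C := by
      rw [hZs, hC]
      refine Finset.sum_le_sum fun j _ => ?_
      have h2 : z j ≤ 1 := Zk_le_one P hP hP1 t _ fun g y =>
        mul_le_one₀ (hu1 _ _) (hv0 _ _) (hv1 _ _)
      have := mul_le_mul_of_nonneg_left h2 (hc j)
      linarith
    linarith
  -- the pieces
  have hp : ∀ j, Λ * (t * z j - K * o j) ≤ negMulLog (z j) := by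
    intro j
    have h1 := T (u j) (v j) (hu0 j) (hv0 j)
    have h2 : 0 ≤ Zk P t (fun g y => negMulLog (u j g * v j y)) :=
      Zk_nonneg P hP t _ fun g y => negMulLog_nonneg (mul_nonneg (hu0 _ _) (hv0 _ _))
        (mul_le_one₀ (hu1 _ _) (hv0 _ _) (hv1 _ _))
    linarith
  have h1 : Λ * (t * Z - K * O) ≤ ∑ j, c j * negMulLog (z j) := by
    have h2 := Finset.sum_le_sum fun j (_ : j ∈ univ) => mul_le_mul_of_nonneg_left (hp j) (hc j)
    refine le_trans (le_of_eq ?_) h2
    have e : ∀ j, c j * (Λ * (t * z j - K * o j)) =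
        (Λ * t) * (c j * z j) - (Λ * K) * (c j * o j) := by intro j; ring
    rw [Finset.sum_congr rfl fun j _ => e j, Finset.sum_sub_distrib, ← Finset.mul_sum,
      ← Finset.mul_sum, ← hZs, ← hOs]
    ring
  have h3 : ∑ j, c j * negMulLog (z j) ≤ C * negMulLog (Z / C) := by
    have h4 := jensen (fun j => c j / C) z (fun j => div_nonneg (hc j) hC0.le)
      (by rw [← Finset.sum_div, ← hC, div_self hC0.ne']) hz0
    have e1 : ∑ j, c j / C * z j = Z / C := by
      rw [hZs, Finset.sum_div]
      exact Finset.sum_congr rfl fun j _ => by ring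
    have e2 : ∑ j, c j / C * negMulLog (z j) = (∑ j, c j * negMulLog (z j)) / C := by
      rw [Finset.sum_div]
      exact Finset.sum_congr rfl fun j _ => by ring
    rw [e1, e2, div_le_iff₀ hC0] at h4
    linarith
  have h5 : C * negMulLog (Z / C) = Z * log (C / Z) := by
    unfold negMulLog
    rw [log_div hZ.ne' hC0.ne', log_div hC0.ne' hZ.ne']
    field_simp
    ring
  rw [h5] at h3
  have h6 : Λ * (t - K * (O / Z)) ≤ log (C / Z) := by
    have h7 : Z * (Λ * (t - K * (O / Z))) = Λ * (t * Z - K * O) := by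
      field_simp
    have h8 : Z * (Λ * (t - K * (O / Z))) ≤ Z * log (C / Z) := by
      rw [h7]; exact h1.trans h3
    exact le_of_mul_le_mul_left h8 hZ
  have h9 : exp (Λ * (t - K * (O / Z))) ≤ C / Z := by
    rw [← exp_log (div_pos hC0 hZ)]
    exact exp_le_exp.2 h6
  rw [le_div_iff₀ hZ] at h9
  linarith

end

/-! ### The functionals of the matrices which depend on the rows and on the number of blocks inside. -/

variable {Q : Type} [Fintype Q] [DecidableEq Q] [Nonempty Q]

/-- the number of the blocks in which the point lies on the graph -/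
def cnt {t : ℕ} (g : Fin t → (Q → Bool)) (y : Fin t → Q × Bool) : ℕ :=
  (univ.filter fun i => (y i).2 = g i (y i).1).card

omit [Fintype Q] [DecidableEq Q] [Nonempty Q] in
theorem cnt_cons {t : ℕ} (f : Q → Bool) (g : Fin t → (Q → Bool)) (x : Q × Bool)
    (y : Fin t → Q × Bool) :
    cnt (Fin.cons f g : Fin (t + 1) → (Q → Bool)) (Fin.cons x y : Fin (t + 1) → Q × Bool) =
      (if x.2 = f x.1 then 1 else 0) + cnt g y := by
  unfold cnt
  rw [Fin.univ_succ, Finset.filter_cons]
  simp only [Fin.cons_zero, Finset.filter_map, Function.comp_def, Function.Embedding.coeFn_mk,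
    Fin.cons_succ]
  split_ifs
  · rw [Finset.card_cons, Finset.card_map, add_comm]
  · rw [Finset.card_map, zero_add]

theorem sum_cons {A : Type} [Fintype A] {t : ℕ} (F : (Fin (t + 1) → A) → ℝ) :
    ∑ g, F g = ∑ a, ∑ g : Fin t → A, F (Fin.cons a g) := by
  rw [← (Fin.consEquiv fun _ => A).sum_comp, Fintype.sum_prod_type]
  rfl

theorem Zk_cnt : ∀ (t : ℕ) (F : (Fin t → (Q → Bool)) → ℕ → ℝ),
    Zk P t (fun g (y : Fin t → Q × Bool) => F g (cnt g y)) =
      (∑ g, F g 0) / nG Q ^ t := by
  intro t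
  induction t with
  | zero =>
    intro F
    simp only [Zk, pow_zero, div_one, Fintype.sum_unique]
    congr 1
  | succ t ih =>
    intro F
    unfold Zk
    rw [sum_cons, Finset.sum_div]
    refine Finset.sum_congr rfl fun f _ => ?_
    have h1 : ∀ x : Q × Bool, P f x * Zk P t (fun g (y : Fin t → Q × Bool) =>
        F (Fin.cons f g) (cnt (Fin.cons f g : Fin (t + 1) → (Q → Bool))
          (Fin.cons x y : Fin (t + 1) → Q × Bool))) =
        P f x * ((∑ g : Fin t → (Q → Bool), F (Fin.cons f g) 0) / nG Q ^ t) := by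
      intro x
      by_cases hx : x.2 = f x.1
      · have : P f x = 0 := by
          unfold P
          rw [if_neg]
          rw [hx]
          cases f x.1 <;> simp
        rw [this, zero_mul, zero_mul]
      · congr 1
        rw [← ih (fun g m => F (Fin.cons f g) m)]
        congr 1
        funext g y
        rw [cnt_cons, if_neg hx, zero_add]
    rw [Finset.sum_congr rfl fun x _ => h1 x, ← Finset.sum_mul, sum_P_one, pow_succ]
    have := nG_pos (Q := Q)
    field_simp

theorem OS_cnt : ∀ (t : ℕ) (F : (Fin t → (Q → Bool)) → ℕ → ℝ),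
    OS P P' t (fun g (y : Fin t → Q × Bool) => F g (cnt g y)) =
      t * ((∑ g, F g 1) / nG Q ^ t) := by
  intro t
  induction t with
  | zero =>
    intro F
    simp [OS]
  | succ t ih =>
    intro F
    unfold OS
    have hn := nG_pos (Q := Q)
    have h1 : ∀ (f : Q → Bool) (x : Q × Bool), P' f x * Zk P t (fun g (y : Fin t → Q × Bool) =>
        F (Fin.cons f g) (cnt (Fin.cons f g : Fin (t + 1) → (Q → Bool))
          (Fin.cons x y : Fin (t + 1) → Q × Bool))) =
        P' f x * ((∑ g : Fin t → (Q → Bool), F (Fin.cons f g) 1) / nG Q ^ t) := by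
      intro f x
      by_cases hx : x.2 = f x.1
      · congr 1
        rw [← Zk_cnt t (fun g m => F (Fin.cons f g) (1 + m))]
        congr 1
        funext g y
        rw [cnt_cons, if_pos hx]
      · have : P' f x = 0 := by
          unfold P'
          rw [if_neg hx]
        rw [this, zero_mul, zero_mul]
    have h2 : ∀ (f : Q → Bool) (x : Q × Bool), P f x * OS P P' t (fun g (y : Fin t → Q × Bool) =>
        F (Fin.cons f g) (cnt (Fin.cons f g : Fin (t + 1) → (Q → Bool))
          (Fin.cons x y : Fin (t + 1) → Q × Bool))) =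
        P f x * (t * ((∑ g : Fin t → (Q → Bool), F (Fin.cons f g) 1) / nG Q ^ t)) := by
      intro f x
      by_cases hx : x.2 = f x.1
      · have : P f x = 0 := by
          unfold P
          rw [if_neg]
          rw [hx]
          cases f x.1 <;> simp
        rw [this, zero_mul, zero_mul]
      · congr 1
        rw [← ih (fun g m => F (Fin.cons f g) m)]
        congr 1
        funext g y
        rw [cnt_cons, if_neg hx, zero_add]
    have e1 : ∑ f : Q → Bool, ∑ x : Q × Bool, P' f x * Zk P t (fun g (y : Fin t → Q × Bool) =>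
        F (Fin.cons f g) (cnt (Fin.cons f g : Fin (t + 1) → (Q → Bool))
          (Fin.cons x y : Fin (t + 1) → Q × Bool))) = (∑ g, F g 1) / nG Q ^ (t + 1) := by
      rw [sum_cons, Finset.sum_div]
      refine Finset.sum_congr rfl fun f _ => ?_
      rw [Finset.sum_congr rfl fun x _ => h1 f x, ← Finset.sum_mul, sum_P'_one, pow_succ]
      field_simp
    have e2 : ∑ f : Q → Bool, ∑ x : Q × Bool, P f x * OS P P' t
        (fun g (y : Fin t → Q × Bool) =>
        F (Fin.cons f g) (cnt (Fin.cons f g : Fin (t + 1) → (Q → Bool))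
          (Fin.cons x y : Fin (t + 1) → Q × Bool))) = t * ((∑ g, F g 1) / nG Q ^ (t + 1)) := by
      rw [sum_cons, Finset.sum_div, Finset.mul_sum]
      refine Finset.sum_congr rfl fun f _ => ?_
      rw [Finset.sum_congr rfl fun x _ => h2 f x, ← Finset.sum_mul, sum_P_one, pow_succ]
      field_simp
    rw [e1, e2]
    push_cast
    ring

end Pool.Agent.L5helper35.LPS
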