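import Mathlib

/-! Gibbs' variational inequality with an event, and its bilinear form for a kernel. -/

set_option autoImplicit false

namespace Pool.Agent.L5helper35.LPS

open Finset Real

/-- Gibbs' inequality. -/
theorem gibbs {ι : Type*} [Fintype ι] (p a h : ι → ℝ) (hp : ∀ i, 0 ≤ p i) (hp1 : ∑ i, p i = 1)
    (ha : ∀ i, 0 ≤ a i) :
    ∑ i, p i * a i * h i - (∑ i, p i * a i) * log (∑ i, p i * exp (h i)) +
      ∑ i, p i * negMulLog (a i) ≤ negMulLog (∑ i, p i * a i) := by
  set A := ∑ i, p i * a i with hA
  set Z := ∑ i, p i * exp (h i) with hZ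
  have hA0 : 0 ≤ A := Finset.sum_nonneg fun i _ => mul_nonneg (hp i) (ha i)
  have hZ0 : 0 < Z := by
    have h1 : ∃ i, 0 < p i := by
      by_contra hc
      push Not at hc
      have : ∑ i, p i ≤ 0 := Finset.sum_nonpos fun i _ => hc i
      linarith
    obtain ⟨i, hi⟩ := h1
    exact Finset.sum_pos' (fun j _ => mul_nonneg (hp j) (exp_pos _).le)
      ⟨i, mem_univ i, mul_pos hi (exp_pos _)⟩
  rcases hA0.eq_or_lt with hA1 | hA1
  · -- all terms vanish
    have h0 : ∀ i, p i * a i = 0 := by
      intro i
      have := (Finset.sum_eq_zero_iff_of_nonneg (fun i _ => mul_nonneg (hp i) (ha i))).1 hA1.symm i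
        (mem_univ i)
      exact this
    have h1 : ∀ i, p i * negMulLog (a i) = 0 := by
      intro i
      rcases mul_eq_zero.1 (h0 i) with h | h
      · rw [h, zero_mul]
      · rw [h, negMulLog_zero, mul_zero]
    rw [← hA1]
    simp only [h0, h1, zero_mul, Finset.sum_const_zero, negMulLog_zero]
    norm_num
  · have key : ∀ i, p i * negMulLog (a i) ≤
        p i * (-(a i) * (log A + h i - log Z) + A * exp (h i) / Z - a i) := by
      intro i
      refine mul_le_mul_of_nonneg_left ?_ (hp i)
      rcases (ha i).eq_or_lt with h0 | h0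
      · rw [← h0, negMulLog_zero]
        have : 0 ≤ A * exp (h i) / Z := by positivity
        linarith
      · have hr : 0 < A * exp (h i) / Z := by positivity
        have h1 : log (A * exp (h i) / Z / a i) ≤ A * exp (h i) / Z / a i - 1 :=
          log_le_sub_one_of_pos (by positivity)
        rw [log_div hr.ne' h0.ne', log_div (by positivity) hZ0.ne', log_mul hA1.ne'
          (exp_pos _).ne', log_exp] at h1
        have h2 := mul_le_mul_of_nonneg_left h1 h0.le
        have h3 : a i * (A * exp (h i) / Z / a i - 1) = A * exp (h i) / Z - a i := by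
          field_simp
        rw [h3] at h2
        unfold negMulLog
        nlinarith
    have h2 := Finset.sum_le_sum fun i (_ : i ∈ univ) => key i
    have h3 : ∑ i, p i * (-(a i) * (log A + h i - log Z) + A * exp (h i) / Z - a i) =
        -(A * (log A - log Z)) - ∑ i, p i * a i * h i + A / Z * Z - A := by
      have e1 : ∀ i, p i * (-(a i) * (log A + h i - log Z) + A * exp (h i) / Z - a i) =
          (-(log A - log Z)) * (p i * a i) - p i * a i * h i + A / Z * (p i * exp (h i)) -
            p i * a i := by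
        intro i; ring
      rw [Finset.sum_congr rfl fun i _ => e1 i, Finset.sum_sub_distrib, Finset.sum_add_distrib,
        Finset.sum_sub_distrib, ← Finset.mul_sum, ← Finset.mul_sum, ← hA, ← hZ]
      ring
    rw [h3, div_mul_cancel₀ _ hZ0.ne'] at h2
    unfold negMulLog at h2 ⊢
    linarith

/-- The event form. -/
theorem gibbs_event {ι : Type*} [Fintype ι] (p a : ι → ℝ) (hp : ∀ i, 0 ≤ p i)
    (hp1 : ∑ i, p i = 1) (ha : ∀ i, 0 ≤ a i) (E : ι → Prop) [DecidablePred E] (s q : ℝ)
    (hs : 0 ≤ s) (hE : ∑ i, (if E i then p i else 0) ≤ q) :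
    s * ∑ i, (if E i then p i * a i else 0) -
      (∑ i, p i * a i) * log (1 + (exp s - 1) * q) + ∑ i, p i * negMulLog (a i) ≤
        negMulLog (∑ i, p i * a i) := by
  have h1 := gibbs p a (fun i => if E i then s else 0) hp hp1 ha
  have e1 : ∑ i, p i * a i * (if E i then s else 0) =
      s * ∑ i, (if E i then p i * a i else 0) := by
    rw [Finset.mul_sum]
    refine Finset.sum_congr rfl fun i _ => ?_
    split_ifs <;> ring
  have e2 : ∑ i, p i * exp (if E i then s else 0) =
      1 + (exp s - 1) * ∑ i, (if E i then p i else 0) := by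
    have e : ∀ i, p i * exp (if E i then s else 0) =
        p i + (exp s - 1) * (if E i then p i else 0) := by
      intro i
      split_ifs
      · ring
      · rw [exp_zero]; ring
    rw [Finset.sum_congr rfl fun i _ => e i, Finset.sum_add_distrib, hp1, ← Finset.mul_sum]
  rw [e1, e2] at h1
  have hs1 : 0 ≤ exp s - 1 := by
    have := Real.one_le_exp hs
    linarith
  have hP : 0 ≤ ∑ i, (if E i then p i else 0) :=
    Finset.sum_nonneg fun i _ => by split_ifs; exacts [hp i, le_rfl]
  have h2 : log (1 + (exp s - 1) * ∑ i, (if E i then p i else 0)) ≤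
      log (1 + (exp s - 1) * q) := by
    refine log_le_log (by positivity) ?_
    have := mul_le_mul_of_nonneg_left hE hs1
    linarith
  have hA0 : 0 ≤ ∑ i, p i * a i := Finset.sum_nonneg fun i _ => mul_nonneg (hp i) (ha i)
  have h3 := mul_le_mul_of_nonneg_left h2 hA0
  linarith

/-- The bilinear form for a kernel with uniform marginal. -/
theorem kernel_event {A B : Type*} [Fintype A] [Fintype B] (P : A → B → ℝ) (n : ℝ) (hn : 0 < n)
    (hP : ∀ a b, 0 ≤ P a b) (hP1 : ∀ b, ∑ a, P a b = 1 / n) (α : A → ℝ) (β : B → ℝ)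
    (hα : ∀ a, 0 ≤ α a) (hβ : ∀ b, 0 ≤ β b) (E : A → Prop) [DecidablePred E] (s q : ℝ)
    (hs : 0 ≤ s) (hE : ∀ b, ∑ a, (if E a then n * P a b else 0) ≤ q) :
    ∑ a, ∑ b, P a b * negMulLog (α a * β b) +
      s * ∑ a, ∑ b, (if E a then P a b * (α a * β b) else 0) -
      log (1 + (exp s - 1) * q) * ∑ a, ∑ b, P a b * (α a * β b) ≤
      ∑ b, 1 / n * negMulLog ((∑ a, n * P a b * α a) * β b) := by
  have h1 : ∀ b, 1 / n * (β b * (s * ∑ a, (if E a then n * P a b * α a else 0) -
      (∑ a, n * P a b * α a) * log (1 + (exp s - 1) * q) +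
        ∑ a, n * P a b * negMulLog (α a)) + (∑ a, n * P a b * α a) * negMulLog (β b)) ≤
      1 / n * negMulLog ((∑ a, n * P a b * α a) * β b) := by
    intro b
    refine mul_le_mul_of_nonneg_left ?_ (by positivity)
    rw [negMulLog_mul]
    have := gibbs_event (fun a => n * P a b) α (fun a => mul_nonneg hn.le (hP a b))
      (by rw [← Finset.mul_sum, hP1 b, mul_one_div_cancel hn.ne']) hα E s q hs (hE b)
    have := mul_le_mul_of_nonneg_left this (hβ b)
    linarith
  refine le_trans (le_of_eq ?_) (Finset.sum_le_sum fun b _ => h1 b)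
  rw [Finset.sum_comm (f := fun a b => P a b * negMulLog (α a * β b)),
    Finset.sum_comm (f := fun a b => (if E a then P a b * (α a * β b) else 0)),
    Finset.sum_comm (f := fun a b => P a b * (α a * β b)), Finset.mul_sum, Finset.mul_sum,
    ← Finset.sum_add_distrib, ← Finset.sum_sub_distrib]
  refine Finset.sum_congr rfl fun b _ => ?_
  have hb : ∀ f : A → ℝ, 1 / n * (β b * ∑ a, f a) = ∑ a, 1 / n * (β b * f a) := by
    intro f
    rw [Finset.mul_sum, Finset.mul_sum]
  have e2 : ∑ a, (if E a then P a b * (α a * β b) else 0) =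
      1 / n * (β b * ∑ a, (if E a then n * P a b * α a else 0)) := by
    rw [hb]
    refine Finset.sum_congr rfl fun a _ => ?_
    split_ifs
    · field_simp
    · ring
  have e3 : ∑ a, P a b * (α a * β b) = 1 / n * (β b * ∑ a, n * P a b * α a) := by
    rw [hb]
    refine Finset.sum_congr rfl fun a _ => ?_
    field_simp
  have e1 : ∑ a, P a b * negMulLog (α a * β b) =
      1 / n * (β b * ∑ a, n * P a b * negMulLog (α a)) +
        1 / n * ((∑ a, n * P a b * α a) * negMulLog (β b)) := by
    rw [hb, Finset.sum_mul, Finset.mul_sum, ← Finset.sum_add_distrib]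
    refine Finset.sum_congr rfl fun a _ => ?_
    rw [negMulLog_mul]
    field_simp
  rw [e1, e2, e3]
  ring

end Pool.Agent.L5helper35.LPS
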