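import Pool.Agent.L5helper35.LPS.LP

/-! The choice of the parameters and the final bounds. -/

set_option autoImplicit false

namespace Pool.Agent.L5helper35.LPS

open Finset Real Filter

/-- The parameters. -/
theorem params (B : ℕ) (hB : 2 ≤ B) (h9 : 0 ≤ ((B : ℝ) - 9) * log 2 - 3 * log B) :
    ∃ Λ : ℝ, 0 ≤ Λ ∧ Λ ≤ B ∧
      Λ ≤ 1 / (B : ℝ) * ((1 / (B : ℝ)) / (16 * (1 / (32 * (B : ℝ) ^ 3))) - log 3) ∧
      Λ ≤ (1 - 1 / (B : ℝ)) * ((1 - 2 * (1 / (B : ℝ))) *
        log (1 / (32 * (B : ℝ) ^ 3) * 2 ^ (B - 1)) - log 2) ∧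
      ((B : ℝ) - 12) * log 2 - 3 * log B ≤ Λ * (1 - 1 / (B : ℝ)) * (1 - 1 / (B : ℝ)) := by
  have hBR : (2 : ℝ) ≤ B := by exact_mod_cast hB
  have hB0 : (0 : ℝ) < B := by linarith
  have hl2 : 0 < log 2 := log_pos (by norm_num)
  have hl2' : log 2 ≤ 1 := by
    have := log_two_lt_d9
    linarith
  have hlB : 0 ≤ log B := log_nonneg (by linarith)
  have hlog : log (1 / (32 * (B : ℝ) ^ 3) * 2 ^ (B - 1)) = ((B : ℝ) - 6) * log 2 - 3 * log B := by
    have e1 : (32 : ℝ) = 2 ^ 5 := by norm_num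
    rw [log_mul (by positivity) (by positivity), one_div, log_inv, log_mul (by norm_num)
      (by positivity), log_pow, log_pow, e1, log_pow]
    have e2 : ((B - 1 : ℕ) : ℝ) = (B : ℝ) - 1 := by
      rw [Nat.cast_sub (by omega)]
      norm_num
    rw [e2]
    push_cast
    ring
  set x := ((B : ℝ) - 6) * log 2 - 3 * log B with hx
  have hx0 : 0 ≤ x := by nlinarith
  have hxB : x ≤ B * log 2 := by nlinarith
  have hinv : 0 < 1 / (B : ℝ) := by positivity
  have hinv2 : 1 / (B : ℝ) ≤ 1 / 2 := by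
    apply one_div_le_one_div_of_le <;> linarith
  have hc : 1 / (B : ℝ) * (B * log 2) = log 2 := by field_simp
  set y := (1 - 2 * (1 / (B : ℝ))) * x - log 2 with hy
  have hxi : 1 / (B : ℝ) * x ≤ log 2 := by
    rw [← hc]
    exact mul_le_mul_of_nonneg_left hxB hinv.le
  have hy1 : x - 3 * log 2 ≤ y := by
    rw [hy]; linarith
  have hy0 : 0 ≤ y := by
    refine le_trans ?_ hy1
    rw [hx]; linarith
  have hyx : y ≤ x := by
    have : 0 ≤ 1 / (B : ℝ) * x := by positivity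
    rw [hy]; linarith
  have step : ∀ z : ℝ, z ≤ B * log 2 → z - log 2 ≤ z * (1 - 1 / (B : ℝ)) := by
    intro z hz
    have := mul_le_mul_of_nonneg_left hz hinv.le
    rw [hc] at this
    linarith
  have h1i : 0 ≤ 1 - 1 / (B : ℝ) := by linarith
  have h1i' : 1 - 1 / (B : ℝ) ≤ 1 := by linarith
  refine ⟨(1 - 1 / (B : ℝ)) * y, mul_nonneg h1i hy0, ?_, ?_, ?_, ?_⟩
  · have : (1 - 1 / (B : ℝ)) * y ≤ 1 * y := mul_le_mul_of_nonneg_right h1i' hy0
    nlinarith
  · have e3 : 1 / (B : ℝ) * ((1 / (B : ℝ)) / (16 * (1 / (32 * (B : ℝ) ^ 3))) - log 3) =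
        2 * B - 1 / (B : ℝ) * log 3 := by
      field_simp
      ring
    rw [e3]
    have h5 : (1 - 1 / (B : ℝ)) * y ≤ 1 * y := mul_le_mul_of_nonneg_right h1i' hy0
    have h6 : log 3 ≤ 2 := by
      have : log 3 ≤ 3 - 1 := log_le_sub_one_of_pos (by norm_num)
      linarith
    have h7 : 1 / (B : ℝ) * log 3 ≤ 1 / 2 * 2 :=
      mul_le_mul hinv2 h6 (log_nonneg (by norm_num)) (by norm_num)
    nlinarith
  · rw [hlog]
  · have hz1 := step y (by linarith)
    have hyB : y * (1 - 1 / (B : ℝ)) ≤ B * log 2 := by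
      have : y * (1 - 1 / (B : ℝ)) ≤ y * 1 := mul_le_mul_of_nonneg_left h1i' hy0
      linarith
    have hz2 := step (y * (1 - 1 / (B : ℝ))) hyB
    have hyB2 : y * (1 - 1 / (B : ℝ)) * (1 - 1 / (B : ℝ)) ≤ B * log 2 := by
      have : y * (1 - 1 / (B : ℝ)) * (1 - 1 / (B : ℝ)) ≤ y * (1 - 1 / (B : ℝ)) * 1 :=
        mul_le_mul_of_nonneg_left h1i' (mul_nonneg hy0 h1i)
      linarith
    have hz3 := step (y * (1 - 1 / (B : ℝ)) * (1 - 1 / (B : ℝ))) hyB2
    have e4 : (1 - 1 / (B : ℝ)) * y * (1 - 1 / (B : ℝ)) * (1 - 1 / (B : ℝ)) =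
        y * (1 - 1 / (B : ℝ)) * (1 - 1 / (B : ℝ)) * (1 - 1 / (B : ℝ)) := by ring
    rw [e4]
    linarith

/-- an embedding of the variables -/
theorem exists_emb {t b m n : ℕ} (h : t * (b + 1) + m ≤ n) : Nonempty (Vr t b m ↪ Fin n) := by
  refine Function.Embedding.nonempty_of_card_le ?_
  simp only [Fintype.card_sum, Fintype.card_prod, Fintype.card_option, Fintype.card_fin]
  exact h

/-- The bound for blocks of `B` bits. -/
theorem block_bound (B : ℕ) (hB : 2 ≤ B) (h9 : 0 ≤ ((B : ℝ) - 9) * log 2 - 3 * log B)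
    (n L : ℕ) (hn : 3 * B ≤ n) (hL : 1 ≤ L) (hLn : (L : ℝ) ≤ 1 / (32 * (B : ℝ) ^ 2) * n) :
    ∃ (T : ℕ) (φ : Fin T → CNF n), 0 < T ∧
      (∀ i, (∀ C ∈ φ i, C.card ≤ 2 * B + 1) ∧ (φ i).card ≤ 8 * 4 ^ B * L * n ^ 2) ∧
      ∀ (s : ℕ) (𝓕 : Set (CNF n)),
        Nonempty (LPFormulation n s (1 / (32 * (B : ℝ) ^ 2) * L) 𝓕) →
        (Nat.card {i : Fin T // φ i ∈ 𝓕} / T : ℝ) *
          exp ((((B : ℝ) - 12) * log 2 - 3 * log B) / B * n - B) ≤ (s + 1) * (2 * n ^ 2) := by
  have hBR : (2 : ℝ) ≤ B := by exact_mod_cast hB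
  have hB0 : (0 : ℝ) < B := by linarith
  have hn0 : (0 : ℝ) ≤ n := Nat.cast_nonneg n
  have hinv : 0 < 1 / (B : ℝ) := by positivity
  have hinv2 : 1 / (B : ℝ) ≤ 1 / 2 := by
    apply one_div_le_one_div_of_le <;> linarith
  obtain ⟨b, rfl⟩ : ∃ b, B = b + 1 := ⟨B - 1, by omega⟩
  set B : ℕ := b + 1 with hBd
  obtain ⟨Λ, hΛ0, hΛB, h1, h2, h3⟩ := params B hB h9
  -- 2 L ≤ n / B
  have hLB : 2 * (L : ℝ) ≤ n / B := by
    rw [le_div_iff₀ hB0]
    have h5 : 2 * (L : ℝ) * B ≤ 2 * (1 / (32 * (B : ℝ) ^ 2) * n) * B := by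
      refine mul_le_mul_of_nonneg_right ?_ hB0.le
      linarith
    have h6 : 2 * (1 / (32 * (B : ℝ) ^ 2) * n) * B = (1 / (B : ℝ)) * (n / 16) := by
      field_simp
      ring
    have h7 : (1 / (B : ℝ)) * (n / 16) ≤ 1 / 2 * (n / 16) :=
      mul_le_mul_of_nonneg_right hinv2 (by positivity)
    linarith
  have hLn2 : 2 * L ≤ n := by
    have h5 : (2 * L : ℝ) ≤ n := by
      refine hLB.trans ?_
      rw [div_le_iff₀ hB0]
      nlinarith
    exact_mod_cast h5
  set t := (n - 2 * L) / B with ht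
  have htB : t * B ≤ n - 2 * L := Nat.div_mul_le_self _ _
  have htB2 : n - 2 * L < t * B + B := by
    have := Nat.lt_div_mul_add (a := n - 2 * L) (b := B) (by omega)
    exact this
  have hcast : ((n - 2 * L : ℕ) : ℝ) = n - 2 * L := by
    rw [Nat.cast_sub hLn2]; push_cast; ring
  have htR : (n : ℝ) / B - n / B * (1 / B) - 1 ≤ t := by
    have h5 : ((n - 2 * L : ℕ) : ℝ) ≤ t * B + B := by exact_mod_cast htB2.le
    rw [hcast] at h5
    have h6 : (n : ℝ) / B - n / B * (1 / B) - 1 = (n - n / B - B) / B := by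
      field_simp
    rw [h6, div_le_iff₀ hB0]
    linarith
  have ht0 : 0 < t := by
    have h5 : (0 : ℝ) < t := by
      have h6 : (3 : ℝ) * B ≤ n := by exact_mod_cast hn
      have h7 : 3 ≤ (n : ℝ) / B := by rw [le_div_iff₀ hB0]; exact h6
      have h8 : (n : ℝ) / B * (1 / B) ≤ n / B * (1 / 2) :=
        mul_le_mul_of_nonneg_left hinv2 (by positivity)
      linarith
    exact_mod_cast h5
  have htn : t ≤ n := by
    have : t ≤ t * B := Nat.le_mul_of_pos_right t (by omega)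
    omega
  obtain ⟨e⟩ := exists_emb (t := t) (b := b) (m := 2 * L) (n := n) (by
    have : t * (b + 1) = t * B := rfl
    omega)
  set T := Fintype.card (Fin t → ((Fin b → Bool) → Bool)) with hT
  have hTpos : 0 < T := Fintype.card_pos
  let eq : Fin T ≃ (Fin t → ((Fin b → Bool) → Bool)) := (Fintype.equivFin _).symm
  refine ⟨T, fun i => form e L (eq i), hTpos, fun i => ⟨form_width e L _, ?_⟩, ?_⟩
  · refine (form_card e L (eq i)).trans ?_
    have h5 : t * 2 ^ (b + 1) * (2 * (2 * L)) ≤ (t * 2 ^ (b + 1)) ^ 2 * (2 * (2 * L)) := by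
      refine Nat.mul_le_mul_right _ ?_
      exact Nat.le_self_pow (by norm_num) _
    have h6 : (t * 2 ^ (b + 1)) ^ 2 * (2 * (2 * L)) = 4 * 4 ^ B * L * t ^ 2 := by
      have : (4 : ℕ) ^ B = (2 ^ (b + 1)) ^ 2 := by
        rw [← pow_mul, mul_comm, pow_mul]
        show (4 : ℕ) ^ (b + 1) = (2 ^ 2) ^ (b + 1)
        norm_num
      rw [this]
      ring
    have h7 : 4 * 4 ^ B * L * t ^ 2 ≤ 4 * 4 ^ B * L * n ^ 2 :=
      Nat.mul_le_mul_left _ (Nat.pow_le_pow_left htn 2)
    calc t * 2 ^ (b + 1) * (2 * (2 * L)) + (t * 2 ^ (b + 1)) ^ 2 * (2 * (2 * L))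
        ≤ 4 * 4 ^ B * L * n ^ 2 + 4 * 4 ^ B * L * n ^ 2 := by omega
      _ = 8 * 4 ^ B * L * n ^ 2 := by ring
  · rintro s 𝓕 ⟨F⟩
    have hLR : (0 : ℝ) < L := by exact_mod_cast hL
    have hNQ : nQ (Fin b → Bool) = 2 ^ (B - 1) := by
      unfold nQ
      simp [hBd]
    have key := lp_bound F e rfl hL (by positivity) ht0 (1 / (B : ℝ)) (1 / (B : ℝ))
      (1 / (32 * (B : ℝ) ^ 3)) Λ hinv (by linarith) hinv hinv2 (by positivity) hΛ0 h1
      (by rw [hNQ]; exact h2)
    have hcard : Nat.card {i : Fin T // form e L (eq i) ∈ 𝓕} =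
        Nat.card {g : Fin t → ((Fin b → Bool) → Bool) // form e L g ∈ 𝓕} :=
      Nat.card_congr (Equiv.subtypeEquiv eq fun i => Iff.rfl)
    have hTn : (T : ℝ) = nG (Fin b → Bool) ^ t := by
      rw [hT, nG, Fintype.card_fun (α := Fin t), Fintype.card_fin]
      push_cast
      rfl
    rw [hcard, hTn]
    set p := (Nat.card {g : Fin t → ((Fin b → Bool) → Bool) // form e L g ∈ 𝓕} : ℝ) /
      nG (Fin b → Bool) ^ t with hp
    have hp0 : 0 ≤ p := by
      have := nG_pos (Q := Fin b → Bool)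
      positivity
    have e1 : 16 / (1 / (B : ℝ)) * (2 * (1 / (32 * (B : ℝ) ^ 2) * L) / L) = 1 / (B : ℝ) := by
      field_simp
      norm_num
    have e2 : 2 * (1 / (32 * (B : ℝ) ^ 2) * L) / L = 1 / (16 * (B : ℝ) ^ 2) := by
      field_simp
      norm_num
    rw [e1, e2] at key
    have h5 : (((B : ℝ) - 12) * log 2 - 3 * log B) / B * n - B ≤ Λ * (t * (1 - 1 / (B : ℝ))) := by
      have h6 : 0 ≤ Λ * (1 - 1 / (B : ℝ)) := mul_nonneg hΛ0 (by linarith)
      have h7 := mul_le_mul_of_nonneg_left htR h6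
      have h8 : Λ * (1 - 1 / (B : ℝ)) * ((n : ℝ) / B - n / B * (1 / B) - 1) =
          (Λ * (1 - 1 / (B : ℝ)) * (1 - 1 / (B : ℝ))) * (n / B) - Λ * (1 - 1 / (B : ℝ)) := by ring
      have h10 := mul_le_mul_of_nonneg_right h3 (by positivity : 0 ≤ (n : ℝ) / B)
      have h11 : Λ * (1 - 1 / (B : ℝ)) ≤ B := by
        have : Λ * (1 - 1 / (B : ℝ)) ≤ Λ * 1 := mul_le_mul_of_nonneg_left (by linarith) hΛ0
        linarith
      have h12 : (((B : ℝ) - 12) * log 2 - 3 * log B) / B * n =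
          (((B : ℝ) - 12) * log 2 - 3 * log B) * (n / B) := by ring
      rw [h12]
      linarith
    have h6 := mul_le_mul_of_nonneg_left (exp_le_exp.2 h5) hp0
    refine (h6.trans key).trans ?_
    refine mul_le_mul_of_nonneg_left ?_ (by positivity)
    have h7 : (t : ℝ) ≤ n := by exact_mod_cast htn
    have h8 : (t : ℝ) ^ 2 ≤ (n : ℝ) ^ 2 := by
      exact pow_le_pow_left₀ (Nat.cast_nonneg _) h7 2
    have h10 : 1 / (16 * (B : ℝ) ^ 2) ≤ 1 := by
      rw [div_le_one (by positivity)]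
      nlinarith
    have h11 : (1 : ℝ) ≤ n := by
      have : 1 ≤ n := by omega
      exact_mod_cast this
    nlinarith

/-- The numerical inequality for the exponents. -/
theorem exponent {k : ℕ} (hk : 2 ≤ k) (h : 31 * log k < k) :
    0 ≤ ((((k - 1) / 2 : ℕ) : ℝ) - 9) * log 2 - 3 * log (((k - 1) / 2 : ℕ) : ℝ) ∧
      2 ≤ (k - 1) / 2 ∧
    log 2 * (1 - 31 * log k / k) + log 2 * (log k / k) ≤
      (((((k - 1) / 2 : ℕ) : ℝ) - 12) * log 2 - 3 * log (((k - 1) / 2 : ℕ) : ℝ)) /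
        (((k - 1) / 2 : ℕ) : ℝ) := by
  have hl2 : 0.6931471803 < log 2 := log_two_gt_d9
  have hl2' : log 2 < 0.6931471808 := log_two_lt_d9
  have hkR : (2 : ℝ) ≤ k := by exact_mod_cast hk
  have hk0 : (0 : ℝ) < k := by linarith
  have h1 : log 2 ≤ log k := log_le_log (by norm_num) hkR
  have h2 : (16 : ℝ) ≤ k := by linarith
  have h3 : log (16 : ℝ) ≤ log k := log_le_log (by norm_num) h2
  have h4 : log (16 : ℝ) = 4 * log 2 := by
    rw [show (16 : ℝ) = 2 ^ 4 by norm_num, log_pow]; norm_num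
  have h5 : (64 : ℝ) ≤ k := by linarith
  have h6 : log (64 : ℝ) ≤ log k := log_le_log (by norm_num) h5
  have h7 : log (64 : ℝ) = 6 * log 2 := by
    rw [show (64 : ℝ) = 2 ^ 6 by norm_num, log_pow]; norm_num
  have h8 : (128 : ℝ) ≤ k := by linarith
  have hkN : 128 ≤ k := by exact_mod_cast h8
  set B := (k - 1) / 2 with hB
  have hB1 : k ≤ 2 * B + 2 := by omega
  have hB2 : 2 * B + 1 ≤ k := by omega
  have hBN : 63 ≤ B := by omega
  have hB1R : (k : ℝ) ≤ 2 * B + 2 := by exact_mod_cast hB1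
  have hB2R : 2 * (B : ℝ) + 1 ≤ k := by exact_mod_cast hB2
  have hBR : (63 : ℝ) ≤ B := by exact_mod_cast hBN
  have hB0 : (0 : ℝ) < B := by linarith
  have hlBk : log B ≤ log k := log_le_log hB0 (by linarith)
  have hk4 : (k : ℝ) ≤ 4 * B := by linarith
  refine ⟨?_, by omega, ?_⟩
  · nlinarith
  · have e1 : (((B : ℝ) - 12) * log 2 - 3 * log B) / B = log 2 - (12 * log 2 + 3 * log B) / B := by
      field_simp
      ring
    rw [e1]
    have h9 : (12 * log 2 + 3 * log B) / B ≤ 20 * (log k / k) := by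
      rw [div_le_iff₀ hB0]
      have h10 : 20 * (log k / k) * B = (5 * log k) * (4 * B / k) := by ring
      rw [h10]
      have h11 : 1 ≤ 4 * (B : ℝ) / k := by
        rw [le_div_iff₀ hk0]; linarith
      have h12 : 0 ≤ 5 * log k := by linarith
      have h13 : 5 * log k * 1 ≤ 5 * log k * (4 * B / k) := mul_le_mul_of_nonneg_left h11 h12
      linarith
    have h14 : 0 ≤ log k / k := div_nonneg (by linarith) hk0.le
    have h15 : log 2 * (1 - 31 * log k / k) + log 2 * (log k / k) =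
        log 2 - (30 * log 2) * (log k / k) := by ring
    rw [h15]
    have h16 : 20 * (log k / k) ≤ (30 * log 2) * (log k / k) :=
      mul_le_mul_of_nonneg_right (by linarith) h14
    linarith

/-- Lower bound with explicit exponent. -/
theorem main (k : ℕ) (hk : 2 ≤ k) : ∃ (κ : ℝ) (W : ℕ), 0 < κ ∧ ∀ᶠ n : ℕ in atTop, ∀ L : ℕ,
    1 ≤ L → (L : ℝ) ≤ κ * n → Hard n k (W * L) (κ * L) (1 - 31 * log k / k) := by
  have hkR : (2 : ℝ) ≤ k := by exact_mod_cast hk
  have hk0 : (0 : ℝ) < k := by linarith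
  have hlk : 0 < log k := log_pos (by linarith)
  rcases lt_or_ge (31 * log k) k with h | h
  · obtain ⟨h9, hB, hexp⟩ := exponent hk h
    set B := (k - 1) / 2 with hBd
    have hBR : (2 : ℝ) ≤ B := by exact_mod_cast hB
    have hB0 : (0 : ℝ) < B := by linarith
    refine ⟨1 / (32 * (B : ℝ) ^ 2), 8 * 4 ^ B, by positivity, ?_⟩
    -- large n
    set ι := log 2 * (log k / k) with hι
    have hι0 : 0 < ι := mul_pos (log_pos (by norm_num)) (div_pos hlk hk0)
    have hlim : ∀ᶠ n : ℕ in atTop, 2 * (n : ℝ) ^ 2 * exp B ≤ exp (ι * n) := by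
      have h1 := (isLittleO_pow_exp_pos_mul_atTop 2 hι0).bound
        (show (0 : ℝ) < 1 / (2 * exp B) by positivity)
      have h2 := tendsto_natCast_atTop_atTop (R := ℝ) |>.eventually h1
      filter_upwards [h2] with n hn
      rw [norm_of_nonneg (by positivity), norm_of_nonneg (exp_pos _).le, one_div,
        inv_mul_eq_div, le_div_iff₀ (by positivity)] at hn
      linarith
    filter_upwards [hlim, eventually_ge_atTop (3 * B)] with n hn1 hn2 L hL hLn
    obtain ⟨T, φ, hT, hφ, hLP⟩ := block_bound B hB h9 n L hn2 hL hLn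
    refine ⟨T, φ, hT, fun i => ⟨fun C hC => ((hφ i).1 C hC).trans (by omega), (hφ i).2⟩, ?_⟩
    intro s 𝓕 hF
    have key := hLP s 𝓕 hF
    set p : ℝ := Nat.card {i : Fin T // φ i ∈ 𝓕} / T with hp
    have hp0 : 0 ≤ p := by positivity
    have hn0 : (0 : ℝ) < n := by
      have : 0 < n := by omega
      exact_mod_cast this
    have e1 : (2 : ℝ) ^ ((1 - 31 * log k / k) * (n : ℝ)) =
        exp (log 2 * (1 - 31 * log k / k) * n) := by
      rw [rpow_def_of_pos (by norm_num)]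
      ring_nf
    rw [e1]
    set r := (((B : ℝ) - 12) * log 2 - 3 * log B) / B with hr
    have h3 : exp (log 2 * (1 - 31 * log k / k) * n) * exp (ι * n) ≤ exp (r * n - B) * exp B := by
      rw [← exp_add, ← exp_add]
      refine exp_le_exp.2 ?_
      have := mul_le_mul_of_nonneg_right hexp hn0.le
      linarith
    have h4 : p * exp (log 2 * (1 - 31 * log k / k) * n) * (2 * (n : ℝ) ^ 2 * exp B) ≤
        (s + 1) * (2 * (n : ℝ) ^ 2 * exp B) := by
      calc p * exp (log 2 * (1 - 31 * log k / k) * n) * (2 * (n : ℝ) ^ 2 * exp B)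
          ≤ p * exp (log 2 * (1 - 31 * log k / k) * n) * exp (ι * n) :=
            mul_le_mul_of_nonneg_left hn1 (mul_nonneg hp0 (exp_pos _).le)
        _ = p * (exp (log 2 * (1 - 31 * log k / k) * n) * exp (ι * n)) := by ring
        _ ≤ p * (exp (r * n - B) * exp B) := mul_le_mul_of_nonneg_left h3 hp0
        _ = p * exp (r * n - B) * exp B := by ring
        _ ≤ (s + 1) * (2 * (n : ℝ) ^ 2) * exp B :=
            mul_le_mul_of_nonneg_right key (exp_pos _).le
        _ = (s + 1) * (2 * (n : ℝ) ^ 2 * exp B) := by ring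
    exact le_of_mul_le_mul_right h4 (by positivity)
  · -- trivial exponents
    refine ⟨1, 0, one_pos, Eventually.of_forall fun n L hL hLn => ?_⟩
    refine ⟨1, fun _ => ∅, one_pos, fun i => ⟨fun C hC => absurd hC (notMem_empty C), by simp⟩, ?_⟩
    intro s 𝓕 _
    have h1 : (2 : ℝ) ^ ((1 - 31 * log k / k) * (n : ℝ)) ≤ 1 := by
      refine rpow_le_one_of_one_le_of_nonpos (by norm_num) ?_
      refine mul_nonpos_of_nonpos_of_nonneg ?_ (Nat.cast_nonneg n)
      have : 1 ≤ 31 * log k / k := by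
        rw [le_div_iff₀ hk0]; linarith
      linarith
    have h2 : (Nat.card {i : Fin 1 // (fun _ : Fin 1 => (∅ : CNF n)) i ∈ 𝓕} : ℝ) / (1 : ℕ) ≤ 1 := by
      have : Nat.card {i : Fin 1 // (fun _ : Fin 1 => (∅ : CNF n)) i ∈ 𝓕} ≤ 1 := by
        have := Finite.card_subtype_le (fun i : Fin 1 => (fun _ : Fin 1 => (∅ : CNF n)) i ∈ 𝓕)
        simpa using this
      have h3 : (Nat.card {i : Fin 1 // (fun _ : Fin 1 => (∅ : CNF n)) i ∈ 𝓕} : ℝ) ≤ 1 := by
        exact_mod_cast this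
      simpa using h3
    have h3 := mul_le_mul h2 h1 (by positivity) zero_le_one
    have h4 : (0 : ℝ) ≤ s := Nat.cast_nonneg s
    linarith

/-- more additive error is easier -/
theorem LPFormulation.mono {n s : ℕ} {K K' : ℝ} {𝓕 : Set (CNF n)} (F : LPFormulation n s K 𝓕)
    (h : K ≤ K') : Nonempty (LPFormulation n s K' 𝓕) :=
  ⟨{ F with
    close := fun φ hφ σ => (F.close φ hφ σ).trans h
    sound := fun φ hφ y h1 h2 => (by linarith [F.sound φ hφ y h1 h2]) }⟩

/-- Lower bound for constant additive error. -/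
theorem main_const (ε : ℝ) (hε : 0 < ε) (K : ℝ) (hK : 0 ≤ K) :
    ∃ k W : ℕ, ∀ᶠ n : ℕ in atTop, Hard n k W K (1 - ε) := by
  -- choice of k
  have hlim : ∀ᶠ k : ℕ in atTop, 31 * log k ≤ ε * k := by
    have h1 := isLittleO_log_id_atTop.bound (show (0 : ℝ) < ε / 31 by positivity)
    have h2 := tendsto_natCast_atTop_atTop (R := ℝ) |>.eventually h1
    filter_upwards [h2, eventually_ge_atTop 1] with n hn hn1
    have h3 : 0 ≤ log (n : ℝ) := log_nonneg (by exact_mod_cast hn1)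
    rw [norm_of_nonneg h3, id, norm_of_nonneg (Nat.cast_nonneg n)] at hn
    linarith
  obtain ⟨k, hk1, hk2⟩ := (hlim.and (eventually_ge_atTop 2)).exists
  have hk0 : (0 : ℝ) < k := by
    have : 0 < k := by omega
    exact_mod_cast this
  obtain ⟨κ, W, hκ, hev⟩ := main k hk2
  obtain ⟨L, hL⟩ := exists_nat_ge (K / κ)
  have hLK : K ≤ κ * (L + 1 : ℕ) := by
    rw [div_le_iff₀ hκ] at hL
    push_cast
    nlinarith
  have hn : ∀ᶠ n : ℕ in atTop, ((L + 1 : ℕ) : ℝ) ≤ κ * n := by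
    obtain ⟨N, hN⟩ := exists_nat_ge (((L + 1 : ℕ) : ℝ) / κ)
    filter_upwards [eventually_ge_atTop N] with n hn
    rw [div_le_iff₀ hκ] at hN
    have : (N : ℝ) ≤ n := by exact_mod_cast hn
    nlinarith
  refine ⟨k, W * (L + 1), ?_⟩
  filter_upwards [hev, hn] with n h1 h2
  obtain ⟨T, φ, hT, hφ, hLP⟩ := h1 (L + 1) (by omega) h2
  refine ⟨T, φ, hT, hφ, fun s 𝓕 ⟨F⟩ => ?_⟩
  refine le_trans ?_ (hLP s 𝓕 (F.mono hLK))
  refine mul_le_mul_of_nonneg_left ?_ (by positivity)
  refine rpow_le_rpow_of_exponent_le (by norm_num) ?_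
  refine mul_le_mul_of_nonneg_right ?_ (Nat.cast_nonneg n)
  have : 31 * log k / k ≤ ε := by
    rw [div_le_iff₀ hk0]; exact hk1
  linarith

/-- The trivial formulation. -/
theorem lp_upper (n : ℕ) : Nonempty (LPFormulation n (2 ^ n) 0 Set.univ) := by
  classical
  have hcard : Fintype.card (Fin n → Bool) = 2 ^ n := by simp
  let φ : Fin (2 ^ n) ≃ (Fin n → Bool) := (Fintype.equivFinOfCardEq hcard).symm
  refine ⟨{ d := 2 ^ n, e := 1
            A := fun i => Pi.single i (-1), b := fun _ => 0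
            C := fun _ _ => 1, f := fun _ => 1
            point := fun σ i => if φ i = σ then 1 else 0
            obj := fun F i => violated F (φ i)
            const := fun _ => 0
            point_le := ?_, point_eq := ?_, close := ?_, sound := ?_ }⟩
  · intro σ i
    rw [single_dotProduct]
    split_ifs <;> norm_num
  · intro σ j
    simp only [dotProduct, one_mul]
    rw [Finset.sum_eq_single (φ.symm σ)]
    · simp
    · intro i _ hi
      rw [if_neg]
      intro h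
      exact hi (by rw [Equiv.eq_symm_apply]; exact h)
    · intro h; exact absurd (mem_univ _) h
  · intro F _ σ
    simp only [dotProduct, add_zero]
    rw [Finset.sum_eq_single (φ.symm σ)]
    · simp
    · intro i _ hi
      rw [if_neg, mul_zero]
      intro h
      exact hi (by rw [Equiv.eq_symm_apply]; exact h)
    · intro h; exact absurd (mem_univ _) h
  · intro F _ y hy1 hy2
    have h0 : ∀ i, 0 ≤ y i := by
      intro i
      have := hy1 i
      rw [single_dotProduct] at this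
      linarith
    have h1 : ∑ i, y i = 1 := by
      have := hy2 0
      simpa [dotProduct] using this
    have h2 : ∑ i, (opt F : ℝ) * y i ≤ ∑ i, (violated F (φ i) : ℝ) * y i := by
      refine sum_le_sum fun i _ => mul_le_mul_of_nonneg_right ?_ (h0 i)
      have : opt F ≤ violated F (φ i) := ciInf_le (OrderBot.bddBelow _) _
      exact_mod_cast this
    rw [← mul_sum, h1] at h2
    simp only [dotProduct]
    linarith

end Pool.Agent.L5helper35.LPS
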