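import Pool.Agent.L5helper35.LPS.Cnt
import Pool.Agent.L5helper35.LPS.Defs

/-! The formulas. -/

set_option autoImplicit false

namespace Pool.Agent.L5helper35.LPS

open Finset

section
variable {t b m n : ℕ}

/-- the names of the variables: `b + 1` for each of the `t` blocks, and `m` more -/
abbrev Vr (t b m : ℕ) := (Fin t × Option (Fin b)) ⊕ Fin m

/-- the bits of a point -/
def val (x : (Fin b → Bool) × Bool) (o : Option (Fin b)) : Bool := o.elim x.2 x.1

theorem val_inj (x x' : (Fin b → Bool) × Bool) (h : ∀ o, val x o = val x' o) : x = x' := by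
  refine Prod.ext (funext fun k => ?_) ?_
  · exact h (some k)
  · exact h none

variable (e : Vr t b m ↪ Fin n)

/-- the contents of the block `i` -/
def bs (σ : Fin n → Bool) (i : Fin t) : (Fin b → Bool) × Bool :=
  (fun k => σ (e (Sum.inl (i, some k))), σ (e (Sum.inl (i, none))))

theorem val_bs (σ : Fin n → Bool) (i : Fin t) (o : Option (Fin b)) :
    val (bs e σ i) o = σ (e (Sum.inl (i, o))) := by
  cases o <;> rfl

/-- the literals which are violated when the block `i` contains `x` -/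
def blk (i : Fin t) (x : (Fin b → Bool) × Bool) : Clause n :=
  univ.image fun o : Option (Fin b) => (e (Sum.inl (i, o)), !(val x o))

theorem mem_blk_inl (i i' : Fin t) (x : (Fin b → Bool) × Bool) (o : Option (Fin b)) (v : Bool) :
    (e (Sum.inl (i', o)), v) ∈ blk e i x ↔ i' = i ∧ v = !(val x o) := by
  unfold blk
  rw [mem_image]
  constructor
  · rintro ⟨o', -, h⟩
    have h1 := Prod.mk.inj h
    have h2 := Sum.inl.inj (e.injective h1.1)
    have h3 := Prod.mk.inj h2
    rw [← h3.2]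
    exact ⟨h3.1.symm, h1.2.symm⟩
  · rintro ⟨rfl, rfl⟩
    exact ⟨o, mem_univ _, rfl⟩

theorem mem_blk_inr (i : Fin t) (x : (Fin b → Bool) × Bool) (j : Fin m) (v : Bool) :
    (e (Sum.inr j), v) ∉ blk e i x := by
  unfold blk
  rw [mem_image]
  rintro ⟨o', -, h⟩
  have h1 := Prod.mk.inj h
  exact absurd (e.injective h1.1) (by simp)

theorem viol_blk (σ : Fin n → Bool) (i : Fin t) (x : (Fin b → Bool) × Bool) :
    (∀ l ∈ blk e i x, σ l.1 ≠ l.2) ↔ bs e σ i = x := by
  constructor
  · intro h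
    apply val_inj
    intro o
    rw [val_bs]
    have := h (e (Sum.inl (i, o)), !(val x o)) ((mem_blk_inl e i i x o _).2 ⟨rfl, rfl⟩)
    simpa using this
  · rintro rfl l hl
    unfold blk at hl
    rw [mem_image] at hl
    obtain ⟨o, -, rfl⟩ := hl
    rw [val_bs]
    simp

theorem card_blk (i : Fin t) (x : (Fin b → Bool) × Bool) : (blk e i x).card ≤ b + 1 := by
  unfold blk
  refine card_image_le.trans ?_
  simp

/-- a clause for one block -/
def c1 (p : (Fin t × ((Fin b → Bool) × Bool)) × (Fin m × Bool)) : Clause n :=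
  insert (e (Sum.inr p.2.1), p.2.2) (blk e p.1.1 p.1.2)

/-- a clause for two blocks -/
def c2 (p : ((Fin t × ((Fin b → Bool) × Bool)) × (Fin t × ((Fin b → Bool) × Bool))) ×
    (Fin m × Bool)) : Clause n :=
  insert (e (Sum.inr p.2.1), p.2.2) (blk e p.1.1.1 p.1.1.2 ∪ blk e p.1.2.1 p.1.2.2)

/-- The formula of the functions `g i`: for every block and every point outside the graph of `g i` it
has `2 L` clauses of which `L` are violated if the block contains this point; for every pair of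
blocks and points on the graphs it has `4 L` clauses of which `2 L` are violated if the blocks contain
these points. -/
def form (L : ℕ) (g : Fin t → ((Fin b → Bool) → Bool)) : CNF n :=
  (univ.filter fun p : (Fin t × ((Fin b → Bool) × Bool)) × (Fin m × Bool) =>
    p.1.2.2 ≠ g p.1.1 p.1.2.1 ∧ p.2.1.val < L).image (c1 e) ∪
  (univ.filter fun p : ((Fin t × ((Fin b → Bool) × Bool)) × (Fin t × ((Fin b → Bool) × Bool))) ×
      (Fin m × Bool) => p.1.1.1 < p.1.2.1 ∧ p.1.1.2.2 = g p.1.1.1 p.1.1.2.1 ∧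
        p.1.2.2.2 = g p.1.2.1 p.1.2.2.1).image (c2 e)

theorem form_width (L : ℕ) (g : Fin t → ((Fin b → Bool) → Bool)) :
    ∀ C ∈ form e L g, C.card ≤ 2 * (b + 1) + 1 := by
  intro C hC
  unfold form at hC
  rw [mem_union, mem_image, mem_image] at hC
  rcases hC with ⟨p, -, rfl⟩ | ⟨p, -, rfl⟩
  · unfold c1
    have h1 := card_insert_le (e (Sum.inr p.2.1), p.2.2) (blk e p.1.1 p.1.2)
    have h2 := card_blk e p.1.1 p.1.2
    omega
  · unfold c2
    have h1 := card_insert_le (e (Sum.inr p.2.1), p.2.2)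
      (blk e p.1.1.1 p.1.1.2 ∪ blk e p.1.2.1 p.1.2.2)
    have h2 := card_union_le (blk e p.1.1.1 p.1.1.2) (blk e p.1.2.1 p.1.2.2)
    have h3 := card_blk e p.1.1.1 p.1.1.2
    have h4 := card_blk e p.1.2.1 p.1.2.2
    omega

theorem form_card (L : ℕ) (g : Fin t → ((Fin b → Bool) → Bool)) :
    (form e L g).card ≤ t * 2 ^ (b + 1) * (2 * m) + (t * 2 ^ (b + 1)) ^ 2 * (2 * m) := by
  unfold form
  refine (card_union_le _ _).trans (Nat.add_le_add ?_ ?_)
  · refine card_image_le.trans ((card_filter_le _ _).trans (le_of_eq ?_))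
    simp only [card_univ, Fintype.card_prod, Fintype.card_fin, Fintype.card_fun, Fintype.card_bool]
    ring
  · refine card_image_le.trans ((card_filter_le _ _).trans (le_of_eq ?_))
    simp only [card_univ, Fintype.card_prod, Fintype.card_fin, Fintype.card_fun, Fintype.card_bool]
    ring

/-- the violated clause for the block `i` and the additional variable `j` -/
def F1 (σ : Fin n → Bool) (q : Fin t × Fin m) : Clause n :=
  c1 e ((q.1, bs e σ q.1), (q.2, !(σ (e (Sum.inr q.2)))))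

/-- the violated clause for the blocks `i`, `i'` and the additional variable `j` -/
def F2 (σ : Fin n → Bool) (q : (Fin t × Fin t) × Fin m) : Clause n :=
  c2 e (((q.1.1, bs e σ q.1.1), (q.1.2, bs e σ q.1.2)), (q.2, !(σ (e (Sum.inr q.2)))))

theorem viol_c1 (σ : Fin n → Bool) (p : (Fin t × ((Fin b → Bool) × Bool)) × (Fin m × Bool)) :
    (∀ l ∈ c1 e p, σ l.1 ≠ l.2) ↔ (bs e σ p.1.1 = p.1.2 ∧ p.2.2 = !(σ (e (Sum.inr p.2.1)))) := by
  unfold c1
  rw [forall_mem_insert, viol_blk]
  constructor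
  · rintro ⟨h1, h2⟩
    refine ⟨h2, ?_⟩
    simp only [ne_eq] at h1
    cases h3 : σ (e (Sum.inr p.2.1)) <;> cases h4 : p.2.2 <;> simp_all
  · rintro ⟨h1, h2⟩
    refine ⟨?_, h1⟩
    simp only [h2]
    simp

theorem viol_c2 (σ : Fin n → Bool) (p : ((Fin t × ((Fin b → Bool) × Bool)) ×
    (Fin t × ((Fin b → Bool) × Bool))) × (Fin m × Bool)) :
    (∀ l ∈ c2 e p, σ l.1 ≠ l.2) ↔ ((bs e σ p.1.1.1 = p.1.1.2 ∧ bs e σ p.1.2.1 = p.1.2.2) ∧
      p.2.2 = !(σ (e (Sum.inr p.2.1)))) := by
  unfold c2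
  rw [forall_mem_insert, forall_mem_union, viol_blk, viol_blk]
  constructor
  · rintro ⟨h1, h2⟩
    refine ⟨h2, ?_⟩
    simp only [ne_eq] at h1
    cases h3 : σ (e (Sum.inr p.2.1)) <;> cases h4 : p.2.2 <;> simp_all
  · rintro ⟨h1, h2⟩
    refine ⟨?_, h1⟩
    simp only [h2]
    simp

/-- the violated clauses -/
theorem viol_form (L : ℕ) (g : Fin t → ((Fin b → Bool) → Bool)) (σ : Fin n → Bool) :
    ((form e L g).filter fun C => ∀ l ∈ C, σ l.1 ≠ l.2) =
      (univ.filter fun q : Fin t × Fin m =>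
        (bs e σ q.1).2 ≠ g q.1 (bs e σ q.1).1 ∧ q.2.val < L).image (F1 e σ) ∪
      (univ.filter fun q : (Fin t × Fin t) × Fin m =>
        q.1.1 < q.1.2 ∧ (bs e σ q.1.1).2 = g q.1.1 (bs e σ q.1.1).1 ∧
          (bs e σ q.1.2).2 = g q.1.2 (bs e σ q.1.2).1).image (F2 e σ) := by
  ext C
  rw [mem_filter, form, mem_union, mem_image, mem_image, mem_union, mem_image, mem_image]
  constructor
  · rintro ⟨⟨p, hp, rfl⟩ | ⟨p, hp, rfl⟩, hC⟩
    · left
      obtain ⟨h1, h2⟩ := (viol_c1 e σ p).1 hC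
      have hp := (mem_filter.1 hp).2
      refine ⟨(p.1.1, p.2.1), mem_filter.2 ⟨mem_univ _, ?_⟩, ?_⟩
      · simp only [h1]
        exact hp
      · unfold F1
        simp only [h1]
        rw [← h2]
    · right
      obtain ⟨⟨h1, h1'⟩, h2⟩ := (viol_c2 e σ p).1 hC
      have hp := (mem_filter.1 hp).2
      refine ⟨((p.1.1.1, p.1.2.1), p.2.1), mem_filter.2 ⟨mem_univ _, ?_⟩, ?_⟩
      · simp only [h1, h1']
        exact hp
      · unfold F2
        simp only [h1, h1']
        rw [← h2]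
  · rintro (⟨q, hq, rfl⟩ | ⟨q, hq, rfl⟩)
    · have hq := (mem_filter.1 hq).2
      refine ⟨Or.inl ⟨_, mem_filter.2 ⟨mem_univ _, hq⟩, rfl⟩, ?_⟩
      exact (viol_c1 e σ _).2 ⟨rfl, rfl⟩
    · have hq := (mem_filter.1 hq).2
      refine ⟨Or.inr ⟨_, mem_filter.2 ⟨mem_univ _, hq⟩, rfl⟩, ?_⟩
      exact (viol_c2 e σ _).2 ⟨⟨rfl, rfl⟩, rfl⟩

theorem mem_c1_inl (p : (Fin t × ((Fin b → Bool) × Bool)) × (Fin m × Bool)) (i : Fin t)
    (o : Option (Fin b)) (v : Bool) :
    (e (Sum.inl (i, o)), v) ∈ c1 e p ↔ i = p.1.1 ∧ v = !(val p.1.2 o) := by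
  unfold c1
  rw [mem_insert, mem_blk_inl]
  constructor
  · rintro (h | h)
    · exact absurd (e.injective (Prod.mk.inj h).1) (by simp)
    · exact h
  · exact Or.inr

theorem mem_c1_inr (p : (Fin t × ((Fin b → Bool) × Bool)) × (Fin m × Bool)) (j : Fin m)
    (v : Bool) : (e (Sum.inr j), v) ∈ c1 e p ↔ j = p.2.1 ∧ v = p.2.2 := by
  unfold c1
  rw [mem_insert]
  constructor
  · rintro (h | h)
    · have h1 := Prod.mk.inj h
      exact ⟨Sum.inr.inj (e.injective h1.1), h1.2⟩
    · exact absurd h (mem_blk_inr e _ _ _ _)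
  · rintro ⟨rfl, rfl⟩
    exact Or.inl rfl

theorem mem_c2_inl (p : ((Fin t × ((Fin b → Bool) × Bool)) × (Fin t × ((Fin b → Bool) × Bool))) ×
    (Fin m × Bool)) (i : Fin t) (o : Option (Fin b)) (v : Bool) :
    (e (Sum.inl (i, o)), v) ∈ c2 e p ↔
      (i = p.1.1.1 ∧ v = !(val p.1.1.2 o)) ∨ (i = p.1.2.1 ∧ v = !(val p.1.2.2 o)) := by
  unfold c2
  rw [mem_insert, mem_union, mem_blk_inl, mem_blk_inl]
  constructor
  · rintro (h | h)
    · exact absurd (e.injective (Prod.mk.inj h).1) (by simp)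
    · exact h
  · exact Or.inr

theorem mem_c2_inr (p : ((Fin t × ((Fin b → Bool) × Bool)) × (Fin t × ((Fin b → Bool) × Bool))) ×
    (Fin m × Bool)) (j : Fin m)
    (v : Bool) : (e (Sum.inr j), v) ∈ c2 e p ↔ j = p.2.1 ∧ v = p.2.2 := by
  unfold c2
  rw [mem_insert, mem_union]
  constructor
  · rintro (h | h | h)
    · have h1 := Prod.mk.inj h
      exact ⟨Sum.inr.inj (e.injective h1.1), h1.2⟩
    · exact absurd h (mem_blk_inr e _ _ _ _)
    · exact absurd h (mem_blk_inr e _ _ _ _)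
  · rintro ⟨rfl, rfl⟩
    exact Or.inl rfl

theorem F1_inj (σ : Fin n → Bool) : Function.Injective (F1 e σ) := by
  intro q q' h
  unfold F1 at h
  have h1 := (mem_c1_inl e ((q.1, bs e σ q.1), (q.2, !(σ (e (Sum.inr q.2))))) q.1 none
    (!(val (bs e σ q.1) none))).2 ⟨rfl, rfl⟩
  rw [h, mem_c1_inl] at h1
  have h2 := (mem_c1_inr e ((q.1, bs e σ q.1), (q.2, !(σ (e (Sum.inr q.2))))) q.2
    (!(σ (e (Sum.inr q.2))))).2 ⟨rfl, rfl⟩
  rw [h, mem_c1_inr] at h2
  exact Prod.ext h1.1 h2.1

theorem F12 (σ : Fin n → Bool) (q : Fin t × Fin m) (q' : (Fin t × Fin t) × Fin m)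
    (hq' : q'.1.1 < q'.1.2) : F1 e σ q ≠ F2 e σ q' := by
  intro h
  unfold F1 F2 at h
  have h1 := (mem_c2_inl e (((q'.1.1, bs e σ q'.1.1), (q'.1.2, bs e σ q'.1.2)),
    (q'.2, !(σ (e (Sum.inr q'.2))))) q'.1.1 none (!(val (bs e σ q'.1.1) none))).2
      (Or.inl ⟨rfl, rfl⟩)
  rw [← h, mem_c1_inl] at h1
  have h2 := (mem_c2_inl e (((q'.1.1, bs e σ q'.1.1), (q'.1.2, bs e σ q'.1.2)),
    (q'.2, !(σ (e (Sum.inr q'.2))))) q'.1.2 none (!(val (bs e σ q'.1.2) none))).2
      (Or.inr ⟨rfl, rfl⟩)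
  rw [← h, mem_c1_inl] at h2
  have h3 : q'.1.1 = q'.1.2 := h1.1.trans h2.1.symm
  exact absurd hq' (by rw [h3]; exact lt_irrefl _)

theorem F2_inj (σ : Fin n → Bool) (q q' : (Fin t × Fin t) × Fin m) (hq : q.1.1 < q.1.2)
    (hq' : q'.1.1 < q'.1.2) (h : F2 e σ q = F2 e σ q') : q = q' := by
  unfold F2 at h
  have h1 := (mem_c2_inl e (((q.1.1, bs e σ q.1.1), (q.1.2, bs e σ q.1.2)),
    (q.2, !(σ (e (Sum.inr q.2))))) q.1.1 none (!(val (bs e σ q.1.1) none))).2
      (Or.inl ⟨rfl, rfl⟩)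
  rw [h, mem_c2_inl] at h1
  have h2 := (mem_c2_inl e (((q.1.1, bs e σ q.1.1), (q.1.2, bs e σ q.1.2)),
    (q.2, !(σ (e (Sum.inr q.2))))) q.1.2 none (!(val (bs e σ q.1.2) none))).2
      (Or.inr ⟨rfl, rfl⟩)
  rw [h, mem_c2_inl] at h2
  have h3 := (mem_c2_inr e (((q.1.1, bs e σ q.1.1), (q.1.2, bs e σ q.1.2)),
    (q.2, !(σ (e (Sum.inr q.2))))) q.2 (!(σ (e (Sum.inr q.2))))).2 ⟨rfl, rfl⟩
  rw [h, mem_c2_inr] at h3
  have h4 : q.1.1 = q'.1.1 ∨ q.1.1 = q'.1.2 := h1.imp And.left And.left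
  have h5 : q.1.2 = q'.1.1 ∨ q.1.2 = q'.1.2 := h2.imp And.left And.left
  refine Prod.ext (Prod.ext ?_ ?_) h3.1 <;> omega

/-- pairs in a set -/
theorem pairs_card (p : Fin t → Prop) [DecidablePred p] :
    2 * (univ.filter fun q : Fin t × Fin t => q.1 < q.2 ∧ p q.1 ∧ p q.2).card +
      (univ.filter p).card = (univ.filter p).card ^ 2 := by
  have h1 : (univ.filter fun q : Fin t × Fin t => q.1 < q.2 ∧ p q.1 ∧ p q.2).card =
      (univ.filter fun q : Fin t × Fin t => q.2 < q.1 ∧ p q.1 ∧ p q.2).card := by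
    refine card_bij (fun q _ => q.swap) ?_ ?_ ?_
    · intro q hq
      have := (mem_filter.1 hq).2
      exact mem_filter.2 ⟨mem_univ _, this.1, this.2.2, this.2.1⟩
    · intro q _ q' _ h
      exact Prod.swap_injective h
    · intro q hq
      have := (mem_filter.1 hq).2
      exact ⟨q.swap, mem_filter.2 ⟨mem_univ _, this.1, this.2.2, this.2.1⟩, q.swap_swap⟩
  have h2 : (univ.filter p).card =
      (univ.filter fun q : Fin t × Fin t => q.1 = q.2 ∧ p q.1 ∧ p q.2).card := by
    refine card_bij (fun i _ => (i, i)) ?_ ?_ ?_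
    · intro i hi
      have := (mem_filter.1 hi).2
      exact mem_filter.2 ⟨mem_univ _, rfl, this, this⟩
    · intro i _ i' _ h
      exact (Prod.mk.inj h).1
    · intro q hq
      have := (mem_filter.1 hq).2
      exact ⟨q.1, mem_filter.2 ⟨mem_univ _, this.2.1⟩, Prod.ext rfl this.1⟩
  have h3 : (univ.filter p).card ^ 2 =
      (univ.filter fun q : Fin t × Fin t => p q.1 ∧ p q.2).card := by
    rw [sq, ← card_product]
    congr 1
    ext q
    simp
  have h4 : (univ.filter fun q : Fin t × Fin t => p q.1 ∧ p q.2) =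
      ((univ.filter fun q : Fin t × Fin t => q.1 < q.2 ∧ p q.1 ∧ p q.2) ∪
        (univ.filter fun q : Fin t × Fin t => q.2 < q.1 ∧ p q.1 ∧ p q.2)) ∪
        (univ.filter fun q : Fin t × Fin t => q.1 = q.2 ∧ p q.1 ∧ p q.2) := by
    ext q
    simp only [mem_filter, mem_univ, true_and, mem_union]
    constructor
    · intro h
      rcases lt_trichotomy q.1 q.2 with h' | h' | h'
      · exact Or.inl (Or.inl ⟨h', h⟩)
      · exact Or.inr ⟨h', h⟩
      · exact Or.inl (Or.inr ⟨h', h⟩)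
    · rintro ((h | h) | h) <;> exact h.2
  have h5 : (univ.filter fun q : Fin t × Fin t => p q.1 ∧ p q.2).card =
      (univ.filter fun q : Fin t × Fin t => q.1 < q.2 ∧ p q.1 ∧ p q.2).card +
        (univ.filter fun q : Fin t × Fin t => q.2 < q.1 ∧ p q.1 ∧ p q.2).card +
        (univ.filter fun q : Fin t × Fin t => q.1 = q.2 ∧ p q.1 ∧ p q.2).card := by
    rw [h4, card_union_of_disjoint, card_union_of_disjoint]
    · rw [disjoint_filter]
      intro q _ h h'
      omega
    · rw [disjoint_union_left, disjoint_filter, disjoint_filter]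
      constructor <;> (intro q _ h h'; omega)
  omega

/-- the number of violated clauses -/
theorem violated_form {L : ℕ} (hm : m = 2 * L) (g : Fin t → ((Fin b → Bool) → Bool))
    (σ : Fin n → Bool) :
    (violated (form e L g) σ : ℝ) =
      L * ((t - 1 : ℝ) + (1 - (cnt g (bs e σ) : ℝ)) ^ 2) := by
  unfold violated
  rw [viol_form, card_union_of_disjoint, card_image_of_injective _ (F1_inj e σ),
    card_image_of_injOn]
  · have hA : (univ.filter fun q : Fin t × Fin m =>
        (bs e σ q.1).2 ≠ g q.1 (bs e σ q.1).1 ∧ q.2.val < L).card =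
        (univ.filter fun i : Fin t => ¬ (bs e σ i).2 = g i (bs e σ i).1).card * L := by
      have h1 : (univ.filter fun q : Fin t × Fin m =>
          (bs e σ q.1).2 ≠ g q.1 (bs e σ q.1).1 ∧ q.2.val < L) =
          (univ.filter fun i : Fin t => ¬ (bs e σ i).2 = g i (bs e σ i).1) ×ˢ
            (univ.filter fun j : Fin m => j.val < L) := by
        ext q
        simp
      rw [h1, card_product]
      congr 1
      subst hm
      have h2 : (univ.filter fun j : Fin (2 * L) => j.val < L) =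
          univ.image (fun j : Fin L => (⟨j.val, by omega⟩ : Fin (2 * L))) := by
        ext j
        simp only [mem_filter, mem_univ, true_and, mem_image]
        constructor
        · intro h
          exact ⟨⟨j.val, h⟩, rfl⟩
        · rintro ⟨j', rfl⟩
          exact j'.2
      rw [h2, card_image_of_injective]
      · simp
      · intro a c h
        apply Fin.ext
        have h' := congrArg (fun z : Fin (2 * L) => z.val) h
        exact h'
    have hB : (univ.filter fun q : (Fin t × Fin t) × Fin m =>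
        q.1.1 < q.1.2 ∧ (bs e σ q.1.1).2 = g q.1.1 (bs e σ q.1.1).1 ∧
          (bs e σ q.1.2).2 = g q.1.2 (bs e σ q.1.2).1).card =
        (univ.filter fun q : Fin t × Fin t => q.1 < q.2 ∧
          (bs e σ q.1).2 = g q.1 (bs e σ q.1).1 ∧
            (bs e σ q.2).2 = g q.2 (bs e σ q.2).1).card * m := by
      have h1 : (univ.filter fun q : (Fin t × Fin t) × Fin m =>
          q.1.1 < q.1.2 ∧ (bs e σ q.1.1).2 = g q.1.1 (bs e σ q.1.1).1 ∧
            (bs e σ q.1.2).2 = g q.1.2 (bs e σ q.1.2).1) =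
          (univ.filter fun q : Fin t × Fin t => q.1 < q.2 ∧
            (bs e σ q.1).2 = g q.1 (bs e σ q.1).1 ∧
              (bs e σ q.2).2 = g q.2 (bs e σ q.2).1) ×ˢ (univ : Finset (Fin m)) := by
        ext q
        simp
      rw [h1, card_product, card_univ, Fintype.card_fin]
    rw [hA, hB]
    have hp := pairs_card (t := t) (fun i => (bs e σ i).2 = g i (bs e σ i).1)
    have hn : (univ.filter fun i : Fin t => (bs e σ i).2 = g i (bs e σ i).1).card +
        (univ.filter fun i : Fin t => ¬ (bs e σ i).2 = g i (bs e σ i).1).card = t := by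
      rw [card_filter_add_card_filter_not]
      simp
    have hc : cnt g (bs e σ) =
      (univ.filter fun i : Fin t => (bs e σ i).2 = g i (bs e σ i).1).card := rfl
    rw [hc]
    have hpR : 2 * ((univ.filter fun q : Fin t × Fin t => q.1 < q.2 ∧
        (bs e σ q.1).2 = g q.1 (bs e σ q.1).1 ∧
          (bs e σ q.2).2 = g q.2 (bs e σ q.2).1).card : ℝ) +
        ((univ.filter fun i : Fin t => (bs e σ i).2 = g i (bs e σ i).1).card : ℝ) =
        ((univ.filter fun i : Fin t => (bs e σ i).2 = g i (bs e σ i).1).card : ℝ) ^ 2 := by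
      exact_mod_cast hp
    have hnR : ((univ.filter fun i : Fin t => (bs e σ i).2 = g i (bs e σ i).1).card : ℝ) +
        ((univ.filter fun i : Fin t => ¬ (bs e σ i).2 = g i (bs e σ i).1).card : ℝ) = t := by
      exact_mod_cast hn
    have hmR : (m : ℝ) = 2 * L := by exact_mod_cast hm
    push_cast
    linear_combination (L : ℝ) * hnR + (L : ℝ) * hpR +
      ((univ.filter fun q : Fin t × Fin t => q.1 < q.2 ∧
        (bs e σ q.1).2 = g q.1 (bs e σ q.1).1 ∧
          (bs e σ q.2).2 = g q.2 (bs e σ q.2).1).card : ℝ) * hmR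
  · intro q hq q' hq' h
    exact F2_inj e σ q q' (mem_filter.1 hq).2.1 (mem_filter.1 hq').2.1 h
  · rw [Finset.disjoint_left]
    intro C h1 h2
    rw [mem_image] at h1 h2
    obtain ⟨q, -, rfl⟩ := h1
    obtain ⟨q', hq', h⟩ := h2
    exact F12 e σ q q' (mem_filter.1 hq').2.1 h.symm

/-- an assignment with given blocks -/
noncomputable def asg (y : Fin t → (Fin b → Bool) × Bool) : Fin n → Bool :=
  Function.extend e (fun v : Vr t b m => v.elim (fun q => val (y q.1) q.2) (fun _ => false))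
    (fun _ => false)

theorem bs_asg (y : Fin t → (Fin b → Bool) × Bool) : bs e (asg e y) = y := by
  funext i
  apply val_inj
  intro o
  rw [val_bs, asg, e.injective.extend_apply]
  rfl

end

end Pool.Agent.L5helper35.LPS
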