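import Pool.Agent.L5helper35.LPS.Ent

/-! The gadget: a Boolean function `f` on `Q` against a point of its graph or of the graph of its
negation. -/

set_option autoImplicit false

namespace Pool.Agent.L5helper35.LPS

open Finset Real

section
variable {Q : Type} [Fintype Q] [DecidableEq Q]

/-- number of Boolean functions on `Q` -/
noncomputable def nG (Q : Type) [Fintype Q] [DecidableEq Q] : ℝ := Fintype.card (Q → Bool)

/-- size of `Q` -/
noncomputable def nQ (Q : Type) [Fintype Q] : ℝ := Fintype.card Q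

theorem nG_pos : 0 < nG Q := by
  unfold nG
  exact_mod_cast Fintype.card_pos

theorem nQ_pos [Nonempty Q] : 0 < nQ Q := by
  unfold nQ
  exact_mod_cast Fintype.card_pos

/-- the uniform distribution on pairs (function, point outside its graph) -/
noncomputable def P (f : Q → Bool) (x : Q × Bool) : ℝ :=
  if x.2 = !(f x.1) then 1 / (nG Q * nQ Q) else 0

/-- the uniform distribution on pairs (function, point of its graph) -/
noncomputable def P' (f : Q → Bool) (x : Q × Bool) : ℝ :=
  if x.2 = f x.1 then 1 / (nG Q * nQ Q) else 0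

theorem P_nonneg (f : Q → Bool) (x : Q × Bool) : 0 ≤ P f x := by
  unfold P
  have := nG_pos (Q := Q)
  have h2 : 0 ≤ nQ Q := by unfold nQ; positivity
  split_ifs
  · positivity
  · exact le_rfl

theorem P'_nonneg (f : Q → Bool) (x : Q × Bool) : 0 ≤ P' f x := by
  unfold P'
  have := nG_pos (Q := Q)
  have h2 : 0 ≤ nQ Q := by unfold nQ; positivity
  split_ifs
  · positivity
  · exact le_rfl

theorem sum_P (f : Q → Bool) (F : Q × Bool → ℝ) :
    ∑ x, P f x * F x = 1 / (nG Q * nQ Q) * ∑ w, F (w, !(f w)) := by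
  rw [Fintype.sum_prod_type, Finset.mul_sum]
  refine Finset.sum_congr rfl fun w _ => ?_
  rw [Fintype.sum_bool]
  unfold P
  cases h : f w <;> simp [h]

theorem sum_P' (f : Q → Bool) (F : Q × Bool → ℝ) :
    ∑ x, P' f x * F x = 1 / (nG Q * nQ Q) * ∑ w, F (w, f w) := by
  rw [Fintype.sum_prod_type, Finset.mul_sum]
  refine Finset.sum_congr rfl fun w _ => ?_
  rw [Fintype.sum_bool]
  unfold P'
  cases h : f w <;> simp [h]

theorem sum_P_one [Nonempty Q] (f : Q → Bool) : ∑ x, P f x = 1 / nG Q := by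
  have := sum_P f (fun _ => 1)
  simp only [mul_one, Finset.sum_const, nsmul_eq_mul, card_univ] at this
  rw [this]
  have h1 := nG_pos (Q := Q)
  have h2 := nQ_pos (Q := Q)
  change 1 / (nG Q * nQ Q) * nQ Q = _
  field_simp

theorem sum_P'_one [Nonempty Q] (f : Q → Bool) : ∑ x, P' f x = 1 / nG Q := by
  have := sum_P' f (fun _ => 1)
  simp only [mul_one, Finset.sum_const, nsmul_eq_mul, card_univ] at this
  rw [this]
  have h1 := nG_pos (Q := Q)
  have h2 := nQ_pos (Q := Q)
  change 1 / (nG Q * nQ Q) * nQ Q = _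
  field_simp

/-- switching the value at `w` -/
def sw (w : Q) : Equiv.Perm (Q → Bool) :=
  Function.Involutive.toPerm (fun f => Function.update f w (!(f w))) (by
    intro f
    simp)

theorem sw_apply (w : Q) (f : Q → Bool) : sw w f w = !(f w) := by
  simp [sw, Function.Involutive.toPerm]

theorem sum_f_ite (w : Q) (c : Bool) (a : ℝ) :
    ∑ f : Q → Bool, (if c = f w then a else 0) = nG Q / 2 * a := by
  have h1 : ∑ f : Q → Bool, (if c = f w then a else 0) =
      ∑ f : Q → Bool, (if c = !(f w) then a else 0) := by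
    refine Fintype.sum_equiv (sw w) _ _ fun f => ?_
    rw [sw_apply, Bool.not_not]
  have h2 : ∑ f : Q → Bool, (if c = f w then a else 0) +
      ∑ f : Q → Bool, (if c = !(f w) then a else 0) = nG Q * a := by
    rw [← Finset.sum_add_distrib]
    have : ∀ f : Q → Bool, (if c = f w then a else 0) + (if c = !(f w) then a else 0) = a := by
      intro f
      cases c <;> cases f w <;> simp
    rw [Finset.sum_congr rfl fun f _ => this f, Finset.sum_const, nsmul_eq_mul, card_univ]
    rfl
  linarith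

theorem sum_P_f [Nonempty Q] (x : Q × Bool) : ∑ f, P f x = 1 / (2 * nQ Q) := by
  unfold P
  have h := sum_f_ite (Q := Q) x.1 (!x.2) (1 / (nG Q * nQ Q))
  have e : ∀ f : Q → Bool, (if x.2 = !(f x.1) then 1 / (nG Q * nQ Q) else 0) =
      if (!x.2) = f x.1 then 1 / (nG Q * nQ Q) else 0 := by
    intro f
    cases x.2 <;> cases f x.1 <;> simp
  rw [Finset.sum_congr rfl fun f _ => e f, h]
  have h1 := nG_pos (Q := Q)
  have h2 := nQ_pos (Q := Q)
  field_simp

theorem exp_pair (a b : ℝ) (ha : 0 ≤ a) (ha1 : a ≤ 1) (hb : 0 ≤ b) (hb1 : b ≤ 1) :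
    exp (-a) + exp (-b) ≤ 2 * exp (-((a + b) / 4)) := by
  have key : ∀ z : ℝ, 0 ≤ z → z ≤ 1 → exp (-z) ≤ 1 - z / 2 := by
    intro z h0 h1
    rw [exp_neg]
    have h2 : z + 1 ≤ exp z := add_one_le_exp z
    have h3 : (exp z)⁻¹ ≤ (z + 1)⁻¹ := inv_anti₀ (by linarith) h2
    refine h3.trans ?_
    rw [inv_le_iff_one_le_mul₀ (by linarith)]
    nlinarith
  have h1 := key a ha ha1
  have h2 := key b hb hb1
  have h3 : -((a + b) / 4) + 1 ≤ exp (-((a + b) / 4)) := add_one_le_exp _
  linarith

/-- Few functions have a small sum on the graph. -/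
theorem bad_card (z : Q → Bool → ℝ) (hz0 : ∀ w c, 0 ≤ z w c) (hz1 : ∀ w c, z w c ≤ 1) (θ : ℝ) :
    ((univ.filter fun f : Q → Bool => ∑ w, z w (f w) ≤ θ).card : ℝ) ≤
      nG Q * exp (θ - (∑ w, ∑ c, z w c) / 4) := by
  classical
  have h1 : ((univ.filter fun f : Q → Bool => ∑ w, z w (f w) ≤ θ).card : ℝ) * exp (-θ) ≤
      ∑ f : Q → Bool, exp (-∑ w, z w (f w)) := by
    rw [← nsmul_eq_mul]
    refine (Finset.card_nsmul_le_sum _ (fun f : Q → Bool => exp (-∑ w, z w (f w))) _ ?_).trans ?_
    · intro f hf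
      have := (mem_filter.1 hf).2
      exact exp_le_exp.2 (by linarith)
    · exact Finset.sum_le_sum_of_subset_of_nonneg (filter_subset _ _)
        fun f _ _ => (exp_pos _).le
  have h2 : ∑ f : Q → Bool, exp (-∑ w, z w (f w)) = ∏ w : Q, ∑ c : Bool, exp (-(z w c)) := by
    rw [Finset.prod_univ_sum, Fintype.piFinset_univ]
    refine Finset.sum_congr rfl fun f _ => ?_
    rw [← exp_sum, ← Finset.sum_neg_distrib]
  have h3 : ∏ w : Q, ∑ c : Bool, exp (-(z w c)) ≤
      ∏ w : Q, (2 * exp (-((∑ c, z w c) / 4))) := by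
    refine Finset.prod_le_prod (fun w _ => Finset.sum_nonneg fun c _ => (exp_pos _).le)
      fun w _ => ?_
    rw [Fintype.sum_bool, Fintype.sum_bool]
    exact exp_pair _ _ (hz0 _ _) (hz1 _ _) (hz0 _ _) (hz1 _ _)
  have h4 : ∏ w : Q, (2 * exp (-((∑ c, z w c) / 4))) =
      nG Q * exp (-((∑ w, ∑ c, z w c) / 4)) := by
    rw [Finset.prod_mul_distrib, ← exp_sum, Finset.prod_const, card_univ, nG,
      Fintype.card_fun, Fintype.card_bool]
    push_cast
    rw [Finset.sum_neg_distrib, ← Finset.sum_div]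
  have h5 : ((univ.filter fun f : Q → Bool => ∑ w, z w (f w) ≤ θ).card : ℝ) * exp (-θ) ≤
      nG Q * exp (-((∑ w, ∑ c, z w c) / 4)) := by
    rw [← h4]
    exact (h1.trans (le_of_eq h2)).trans h3
  have h6 := mul_le_mul_of_nonneg_right h5 (exp_pos θ).le
  rw [mul_assoc, ← exp_add, mul_assoc, ← exp_add] at h6
  simp only [neg_add_cancel, exp_zero, mul_one] at h6
  refine h6.trans (le_of_eq ?_)
  congr 2
  ring

end

end Pool.Agent.L5helper35.LPS
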