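import Pool.Agent.L5helper35.LPS.Form
import Pool.Agent.H575R2.Farkas

/-! From linear programming formulations to nonnegative factorisations. -/

set_option autoImplicit false

namespace Pool.Agent.L5helper35.LPS

open Finset Real

/-- a row as a linear map -/
noncomputable def row {d : ℕ} (a : Fin d → ℝ) : (Fin d → ℝ) →ₗ[ℝ] ℝ :=
  { toFun := fun y => a ⬝ᵥ y
    map_add' := fun x y => dotProduct_add a x y
    map_smul' := fun r x => by simp [dotProduct_smul] }

theorem row_apply {d : ℕ} (a y : Fin d → ℝ) : row a y = a ⬝ᵥ y := rfl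

/-- Farkas' lemma for one formula. -/
theorem farkas_cnf {n s : ℕ} {K : ℝ} {𝓕 : Set (CNF n)} (F : LPFormulation n s K 𝓕) (φ : CNF n)
    (hφ : φ ∈ 𝓕) :
    ∃ (w0 : ℝ) (w : Fin s → ℝ), 0 ≤ w0 ∧ (∀ i, 0 ≤ w i) ∧
      ∀ σ : Fin n → Bool, F.obj φ ⬝ᵥ F.point σ + F.const φ - (opt φ - K) =
        w0 + ∑ i, w i * (F.b i - F.A i ⬝ᵥ F.point σ) := by
  let σ0 : Fin n → Bool := fun _ => false
  let W : Submodule ℝ (Fin F.d → ℝ) := ⨅ j, LinearMap.ker (row (F.C j))
  have hW : ∀ y, y ∈ W ↔ ∀ j, F.C j ⬝ᵥ y = 0 := by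
    intro y
    simp only [W, Submodule.mem_iInf, LinearMap.mem_ker, row_apply]
  obtain ⟨w0, w, h0, hw, hx⟩ := H575R2.farkas_affine s
    (fun i => (row (F.A i)).comp W.subtype) (fun i => F.b i - F.A i ⬝ᵥ F.point σ0)
    (-((row (F.obj φ)).comp W.subtype)) (F.const φ + F.obj φ ⬝ᵥ F.point σ0 - (opt φ - K)) 0
    (fun i => by
      have := F.point_le σ0 i
      simp only [map_zero]
      linarith)
    (fun x hx => by
      have h1 := F.sound φ hφ (F.point σ0 + x) (fun i => by
          have := hx i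
          simp only [LinearMap.comp_apply, Submodule.subtype_apply, row_apply] at this
          rw [dotProduct_add]
          linarith)
        (fun j => by
          rw [dotProduct_add, F.point_eq σ0 j, (hW x.1).1 x.2 j, add_zero])
      simp only [LinearMap.neg_apply, LinearMap.comp_apply, Submodule.subtype_apply, row_apply]
      rw [dotProduct_add] at h1
      linarith)
  refine ⟨w0, w, h0, hw, fun σ => ?_⟩
  have hmem : F.point σ - F.point σ0 ∈ W := by
    rw [hW]
    intro j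
    rw [dotProduct_sub, F.point_eq σ j, F.point_eq σ0 j, sub_self]
  have h1 := hx ⟨F.point σ - F.point σ0, hmem⟩
  simp only [LinearMap.neg_apply, LinearMap.comp_apply, Submodule.subtype_apply, row_apply,
    dotProduct_sub] at h1
  have h3 : F.obj φ ⬝ᵥ F.point σ + F.const φ - (opt φ - K) =
      F.const φ + F.obj φ ⬝ᵥ F.point σ0 - (opt φ - K) -
        -(F.obj φ ⬝ᵥ F.point σ - F.obj φ ⬝ᵥ F.point σ0) := by ring
  rw [h3, h1]
  congr 1
  refine Finset.sum_congr rfl fun i _ => ?_
  ring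

/-- Normalisation of a nonnegative factorisation. -/
theorem normalise {ι A B : Type} [Fintype ι] [Fintype A] [Fintype B] [Nonempty A] [Nonempty B]
    (a : ι → A → ℝ) (b : ι → B → ℝ) (ha : ∀ j g, 0 ≤ a j g) (hb : ∀ j y, 0 ≤ b j y)
    (M : A → B → ℝ) (hM : ∀ g y, M g y = ∑ j, a j g * b j y) (D : ℝ) (hD : ∀ g y, M g y ≤ D) :
    ∃ (c : ι → ℝ) (u : ι → A → ℝ) (v : ι → B → ℝ), (∀ j, 0 ≤ c j) ∧ (∀ j, c j ≤ D) ∧
      (∀ j g, 0 ≤ u j g) ∧ (∀ j g, u j g ≤ 1) ∧ (∀ j y, 0 ≤ v j y) ∧ (∀ j y, v j y ≤ 1) ∧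
      ∀ g y, M g y = ∑ j, c j * (u j g * v j y) := by
  classical
  have h1 : ∀ j, ∃ g0, ∀ g, a j g ≤ a j g0 := fun j => Finite.exists_max (a j)
  have h2 : ∀ j, ∃ y0, ∀ y, b j y ≤ b j y0 := fun j => Finite.exists_max (b j)
  choose g0 hg0 using h1
  choose y0 hy0 using h2
  refine ⟨fun j => a j (g0 j) * b j (y0 j), fun j g => a j g / a j (g0 j),
    fun j y => b j y / b j (y0 j), fun j => mul_nonneg (ha _ _) (hb _ _), fun j => ?_,
    fun j g => div_nonneg (ha _ _) (ha _ _), fun j g => div_le_one_of_le₀ (hg0 j g) (ha _ _),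
    fun j y => div_nonneg (hb _ _) (hb _ _), fun j y => div_le_one_of_le₀ (hy0 j y) (hb _ _),
    fun g y => ?_⟩
  · refine le_trans ?_ (hD (g0 j) (y0 j))
    rw [hM]
    exact Finset.single_le_sum (f := fun j' => a j' (g0 j) * b j' (y0 j))
      (fun j' _ => mul_nonneg (ha _ _) (hb _ _)) (mem_univ j)
  · rw [hM]
    refine Finset.sum_congr rfl fun j _ => ?_
    show a j g * b j y =
      a j (g0 j) * b j (y0 j) * (a j g / a j (g0 j) * (b j y / b j (y0 j)))
    by_cases h3 : a j (g0 j) = 0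
    · have h4 : a j g = 0 := le_antisymm (h3 ▸ hg0 j g) (ha j g)
      rw [h3, h4]; simp
    · by_cases h5 : b j (y0 j) = 0
      · have h4 : b j y = 0 := le_antisymm (h5 ▸ hy0 j y) (hb j y)
        rw [h5, h4]; simp
      · field_simp

theorem OS_mono {A B : Type} [Fintype A] [Fintype B] (P P' : A → B → ℝ)
    (hP : ∀ a b, 0 ≤ P a b) (hP' : ∀ a b, 0 ≤ P' a b) :
    ∀ (t : ℕ) (M M' : (Fin t → A) → (Fin t → B) → ℝ),
    (∀ g y, M g y ≤ M' g y) → OS P P' t M ≤ OS P P' t M' := by
  intro t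
  induction t with
  | zero => intro M M' _; exact le_rfl
  | succ t ih =>
    intro M M' h
    unfold OS
    exact add_le_add (Finset.sum_le_sum fun a _ => Finset.sum_le_sum fun b _ =>
      mul_le_mul_of_nonneg_left (Zk_mono P hP t _ _ fun g y => h _ _) (hP' a b))
      (Finset.sum_le_sum fun a _ => Finset.sum_le_sum fun b _ =>
      mul_le_mul_of_nonneg_left (ih _ _ fun g y => h _ _) (hP a b))

variable {Q : Type} [Fintype Q] [DecidableEq Q] [Nonempty Q]

/-- Lower bound for the number of pieces of a matrix which is close to `(1 - s)²` on the rows in `R`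
and vanishes on the other rows. -/
theorem fact_bound {ι : Type} [Fintype ι] (lam η δ Λ ρ : ℝ) (hl0 : 0 < lam) (hl1 : lam < 1)
    (hη : 0 < η) (hη1 : η ≤ 1 / 2) (hδ : 0 < δ) (hΛ : 0 ≤ Λ) (hρ : 0 ≤ ρ)
    (h1 : Λ ≤ lam * (η / (16 * δ) - log 3))
    (h2 : Λ ≤ (1 - lam) * ((1 - 2 * η) * log (δ * nQ Q) - log 2)) (t : ℕ) (ht : 0 < t)
    (R : Finset (Fin t → (Q → Bool)))
    (a : ι → (Fin t → (Q → Bool)) → ℝ) (b : ι → (Fin t → Q × Bool) → ℝ)
    (ha : ∀ j g, 0 ≤ a j g) (hb : ∀ j y, 0 ≤ b j y) (ha' : ∀ j g, g ∉ R → a j g = 0)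
    (hlo : ∀ g ∈ R, ∀ y, (1 - (cnt g y : ℝ)) ^ 2 ≤ ∑ j, a j g * b j y)
    (hhi : ∀ g ∈ R, ∀ y, ∑ j, a j g * b j y ≤ (1 - (cnt g y : ℝ)) ^ 2 + ρ) :
    (R.card / nG Q ^ t) * exp (Λ * (t * (1 - 16 / η * ρ))) ≤
      Fintype.card ι * ((t : ℝ) ^ 2 + ρ) := by
  classical
  have hG := nG_pos (Q := Q)
  have hQ := nQ_pos (Q := Q)
  set p := (R.card : ℝ) / nG Q ^ t with hp
  have hp0 : 0 ≤ p := by positivity
  set M : (Fin t → (Q → Bool)) → (Fin t → Q × Bool) → ℝ := fun g y => ∑ j, a j g * b j y with hM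
  have hMR : ∀ g, g ∉ R → ∀ y, M g y = 0 := by
    intro g hg y
    simp only [hM]
    exact Finset.sum_eq_zero fun j _ => by rw [ha' j g hg, zero_mul]
  have hcnt : ∀ (g : Fin t → (Q → Bool)) (y : Fin t → Q × Bool), (cnt g y : ℝ) ≤ t := by
    intro g y
    have : cnt g y ≤ t := by
      unfold cnt
      exact (card_le_univ _).trans (by simp)
    exact_mod_cast this
  have ht1 : (1 : ℝ) ≤ t := by exact_mod_cast ht
  have hD : ∀ g y, M g y ≤ (t : ℝ) ^ 2 + ρ := by
    intro g y
    by_cases hg : g ∈ R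
    · refine (hhi g hg y).trans ?_
      have h3 := hcnt g y
      have h4 : (0 : ℝ) ≤ cnt g y := Nat.cast_nonneg _
      have : (1 - (cnt g y : ℝ)) ^ 2 ≤ (t : ℝ) ^ 2 := by
        apply sq_le_sq'
        · linarith
        · linarith
      linarith
    · rw [hMR g hg y]
      positivity
  -- the functionals
  let Flo : (Fin t → (Q → Bool)) → ℕ → ℝ := fun g k => if g ∈ R then (1 - (k : ℝ)) ^ 2 else 0
  let Fhi : (Fin t → (Q → Bool)) → ℕ → ℝ := fun g k => if g ∈ R then (1 - (k : ℝ)) ^ 2 + ρ else 0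
  have hZ : p ≤ Zk P t M := by
    have e1 := Zk_cnt t Flo
    have e2 : (∑ g, Flo g 0) / nG Q ^ t = p := by
      rw [hp]
      congr 1
      simp only [Flo]
      rw [← Finset.sum_filter]
      simp
    rw [← e2, ← e1]
    refine Zk_mono P P_nonneg t _ _ fun g y => ?_
    simp only [Flo]
    split_ifs with hg
    · exact hlo g hg y
    · rw [hMR g hg y]
  have hO : OS P P' t M ≤ t * (p * ρ) := by
    have e1 := OS_cnt t Fhi
    have e2 : (∑ g, Fhi g 1) / nG Q ^ t = p * ρ := by
      rw [hp, div_mul_eq_mul_div]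
      congr 1
      simp only [Fhi]
      rw [← Finset.sum_filter]
      simp
    rw [e2] at e1
    rw [← e1]
    refine OS_mono P P' P_nonneg P'_nonneg t _ _ fun g y => ?_
    simp only [Fhi]
    split_ifs with hg
    · exact hhi g hg y
    · rw [hMR g hg y]
  rcases hp0.eq_or_lt with hp1 | hp1
  · rw [← hp1, zero_mul]
    positivity
  have hZ0 : 0 < Zk P t M := lt_of_lt_of_le hp1 hZ
  obtain ⟨c, u, v, hc0, hcD, hu0, hu1, hv0, hv1, hMc⟩ :=
    normalise a b ha hb M (fun _ _ => rfl) _ hD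
  have hP1 : ∑ f : Q → Bool, ∑ x, P f x = 1 := by
    rw [Finset.sum_congr rfl fun f _ => sum_P_one f, Finset.sum_const, nsmul_eq_mul, card_univ]
    change nG Q * (1 / nG Q) = 1
    field_simp
  have hA : ∑ _a : Q → Bool, 1 / nG Q = 1 := by
    rw [Finset.sum_const, nsmul_eq_mul, card_univ]
    change nG Q * (1 / nG Q) = 1
    field_simp
  have hB : ∑ _b : Q × Bool, 1 / (2 * nQ Q) = 1 := by
    rw [Finset.sum_const, nsmul_eq_mul, card_univ, Fintype.card_prod, Fintype.card_bool]
    push_cast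
    change nQ Q * 2 * (1 / (2 * nQ Q)) = 1
    field_simp
  have T := tens (P (Q := Q)) P' P_nonneg (nG Q) (2 * nQ Q) lam (16 / η) Λ hG (by positivity) hA hB
    hl0.le hl1.le (fun α β hα hβ => local_ineq α β hα hβ lam η δ Λ hl0 hl1 hη hη1 hδ hΛ h1 h2) t
  have key := pieces (P (Q := Q)) P' P_nonneg hP1 (16 / η) Λ t T c hc0 u v hu0 hu1 hv0 hv1 M hMc
    hZ0
  have h3 : ∑ j, c j ≤ Fintype.card ι * ((t : ℝ) ^ 2 + ρ) := by
    refine (Finset.sum_le_sum fun j (_ : j ∈ univ) => hcD j).trans (le_of_eq ?_)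
    rw [Finset.sum_const, nsmul_eq_mul, card_univ]
  refine le_trans ?_ (key.trans h3)
  have h4 : OS P P' t M / Zk P t M ≤ t * ρ := by
    rw [div_le_iff₀ hZ0]
    refine hO.trans ?_
    have : (t : ℝ) * ρ * p ≤ t * ρ * Zk P t M := mul_le_mul_of_nonneg_left hZ (by positivity)
    linarith
  refine mul_le_mul hZ (exp_le_exp.2 ?_) (exp_pos _).le hZ0.le
  refine mul_le_mul_of_nonneg_left ?_ hΛ
  have h5 : 16 / η * (OS P P' t M / Zk P t M) ≤ 16 / η * (t * ρ) :=
    mul_le_mul_of_nonneg_left h4 (by positivity)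
  linarith

/-- The lower bound for linear programming formulations. -/
theorem lp_bound {t b m n s L : ℕ} {K : ℝ} {𝓕 : Set (CNF n)} (F : LPFormulation n s K 𝓕)
    (e : Vr t b m ↪ Fin n) (hm : m = 2 * L) (hL : 0 < L) (hK : 0 ≤ K) (ht : 0 < t)
    (lam η δ Λ : ℝ) (hl0 : 0 < lam) (hl1 : lam < 1)
    (hη : 0 < η) (hη1 : η ≤ 1 / 2) (hδ : 0 < δ) (hΛ : 0 ≤ Λ)
    (h1 : Λ ≤ lam * (η / (16 * δ) - log 3))
    (h2 : Λ ≤ (1 - lam) * ((1 - 2 * η) * log (δ * nQ (Fin b → Bool)) - log 2)) :
    (Nat.card {g : Fin t → ((Fin b → Bool) → Bool) // form e L g ∈ 𝓕} /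
      nG (Fin b → Bool) ^ t) * exp (Λ * (t * (1 - 16 / η * (2 * K / L)))) ≤
      (s + 1) * ((t : ℝ) ^ 2 + 2 * K / L) := by
  classical
  have hLR : (0 : ℝ) < L := by exact_mod_cast hL
  have hfar : ∀ g : Fin t → ((Fin b → Bool) → Bool), ∃ (w0 : ℝ) (w : Fin s → ℝ),
      form e L g ∈ 𝓕 → 0 ≤ w0 ∧ (∀ i, 0 ≤ w i) ∧
      ∀ σ : Fin n → Bool, F.obj (form e L g) ⬝ᵥ F.point σ + F.const (form e L g) -
        (opt (form e L g) - K) = w0 + ∑ i, w i * (F.b i - F.A i ⬝ᵥ F.point σ) := by
    intro g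
    by_cases h : form e L g ∈ 𝓕
    · obtain ⟨w0, w, h1⟩ := farkas_cnf F (form e L g) h
      exact ⟨w0, w, fun _ => h1⟩
    · exact ⟨0, fun _ => 0, fun h' => absurd h' h⟩
  choose w0 w hw using hfar
  set R : Finset (Fin t → ((Fin b → Bool) → Bool)) := univ.filter fun g => form e L g ∈ 𝓕 with hR
  have hRc : Nat.card {g : Fin t → ((Fin b → Bool) → Bool) // form e L g ∈ 𝓕} = R.card := by
    rw [Nat.card_eq_fintype_card, Fintype.card_subtype]
  rw [hRc]
  -- the optimum
  have hopt : ∀ g : Fin t → ((Fin b → Bool) → Bool), (opt (form e L g) : ℝ) = L * (t - 1 : ℝ) := by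
    intro g
    apply le_antisymm
    · -- one block inside
      let y : Fin t → (Fin b → Bool) × Bool := fun i =>
        (fun _ => false, if i = ⟨0, ht⟩ then g i (fun _ => false) else !(g i (fun _ => false)))
      have h3 : opt (form e L g) ≤ violated (form e L g) (asg e y) := ciInf_le (OrderBot.bddBelow _) _
      have h4 : cnt g y = 1 := by
        unfold cnt
        rw [card_eq_one]
        refine ⟨⟨0, ht⟩, ?_⟩
        ext i
        simp only [mem_filter, mem_univ, true_and, mem_singleton, y]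
        by_cases hi : i = ⟨0, ht⟩
        · simp [hi]
        · simp [hi]
      have h5 := violated_form e hm g (asg e y)
      rw [bs_asg, h4] at h5
      have h6 : (opt (form e L g) : ℝ) ≤ violated (form e L g) (asg e y) := by exact_mod_cast h3
      rw [h5] at h6
      refine h6.trans (le_of_eq ?_)
      push_cast
      ring
    · obtain ⟨σ, hσ⟩ : ∃ σ, violated (form e L g) σ = opt (form e L g) :=
        ciInf_mem (violated (form e L g))
      rw [← hσ, violated_form e hm g σ]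
      refine mul_le_mul_of_nonneg_left ?_ hLR.le
      nlinarith [sq_nonneg (1 - (cnt g (bs e σ) : ℝ))]
  have key := fact_bound (Q := Fin b → Bool) (ι := Option (Fin s)) lam η δ Λ (2 * K / L) hl0 hl1 hη
    hη1 hδ hΛ (by positivity) h1 h2 t ht R
    (fun r g => if form e L g ∈ 𝓕 then (match r with
      | none => w0 g
      | some i => w g i) / L else 0)
    (fun r y => match r with
      | none => 1
      | some i => F.b i - F.A i ⬝ᵥ F.point (asg e y))
    (fun r g => by
      split_ifs with hg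
      · cases r with
        | none => exact div_nonneg (hw g hg).1 hLR.le
        | some i => exact div_nonneg ((hw g hg).2.1 i) hLR.le
      · exact le_rfl)
    (fun r y => by
      cases r with
      | none => exact zero_le_one
      | some i =>
        have := F.point_le (asg e y) i
        show 0 ≤ F.b i - F.A i ⬝ᵥ F.point (asg e y)
        linarith)
    (fun r g hg => by
      rw [if_neg]
      intro h
      exact hg (mem_filter.2 ⟨mem_univ _, h⟩))
    (fun g hg y => by
      have hg := (mem_filter.1 hg).2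
      rw [Fintype.sum_option]
      simp only [if_pos hg]
      have h3 := (hw g hg).2.2 (asg e y)
      have h4 : w0 g / L * 1 + ∑ i, w g i / L * (F.b i - F.A i ⬝ᵥ F.point (asg e y)) =
          (w0 g + ∑ i, w g i * (F.b i - F.A i ⬝ᵥ F.point (asg e y))) / L := by
        rw [add_div, Finset.sum_div, mul_one]
        congr 1
        exact Finset.sum_congr rfl fun i _ => by ring
      rw [h4, ← h3, le_div_iff₀ hLR, hopt]
      have h5 := (abs_le.1 (F.close (form e L g) hg (asg e y))).1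
      rw [violated_form e hm g (asg e y), bs_asg] at h5
      linarith)
    (fun g hg y => by
      have hg := (mem_filter.1 hg).2
      rw [Fintype.sum_option]
      simp only [if_pos hg]
      have h3 := (hw g hg).2.2 (asg e y)
      have h4 : w0 g / L * 1 + ∑ i, w g i / L * (F.b i - F.A i ⬝ᵥ F.point (asg e y)) =
          (w0 g + ∑ i, w g i * (F.b i - F.A i ⬝ᵥ F.point (asg e y))) / L := by
        rw [add_div, Finset.sum_div, mul_one]
        congr 1
        exact Finset.sum_congr rfl fun i _ => by ring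
      rw [h4, ← h3, div_le_iff₀ hLR, hopt]
      have h5 := (abs_le.1 (F.close (form e L g) hg (asg e y))).2
      rw [violated_form e hm g (asg e y), bs_asg] at h5
      have h6 : (2 * K / L) * L = 2 * K := by field_simp
      linarith)
  rw [Fintype.card_option, Fintype.card_fin] at key
  push_cast at key
  exact key

end Pool.Agent.L5helper35.LPS
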