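import Mathlib

/-! Tensorisation of the local inequality. -/

set_option autoImplicit false

namespace Pool.Agent.L5helper35.LPS

open Finset Real

variable {A B : Type} [Fintype A] [Fintype B]

/-- the mean of `M` over the `t`-fold product of `P` -/
noncomputable def Zk (P : A → B → ℝ) : (t : ℕ) → ((Fin t → A) → (Fin t → B) → ℝ) → ℝ
  | 0, M => M Fin.elim0 Fin.elim0
  | t + 1, M => ∑ a, ∑ b, P a b * Zk P t (fun g y => M (Fin.cons a g) (Fin.cons b y))

/-- the sum of the means of `M` over the products of `t - 1` factors `P` and one factor `P'` -/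
noncomputable def OS (P P' : A → B → ℝ) : (t : ℕ) → ((Fin t → A) → (Fin t → B) → ℝ) → ℝ
  | 0, _ => 0
  | t + 1, M => ∑ a, ∑ b, P' a b * Zk P t (fun g y => M (Fin.cons a g) (Fin.cons b y)) +
      ∑ a, ∑ b, P a b * OS P P' t (fun g y => M (Fin.cons a g) (Fin.cons b y))

section
variable (P P' : A → B → ℝ)

theorem Zk_mono (hP : ∀ a b, 0 ≤ P a b) : ∀ (t : ℕ) (M M' : (Fin t → A) → (Fin t → B) → ℝ),
    (∀ g y, M g y ≤ M' g y) → Zk P t M ≤ Zk P t M' := by
  intro t
  induction t with
  | zero => intro M M' h; exact h _ _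
  | succ t ih =>
    intro M M' h
    unfold Zk
    exact Finset.sum_le_sum fun a _ => Finset.sum_le_sum fun b _ =>
      mul_le_mul_of_nonneg_left (ih _ _ fun g y => h _ _) (hP a b)

theorem Zk_zero : ∀ t : ℕ, Zk P t (fun _ _ => 0) = 0 := by
  intro t
  induction t with
  | zero => rfl
  | succ t ih => unfold Zk; simp [ih]

theorem Zk_nonneg (hP : ∀ a b, 0 ≤ P a b) (t : ℕ) (M : (Fin t → A) → (Fin t → B) → ℝ)
    (h : ∀ g y, 0 ≤ M g y) : 0 ≤ Zk P t M := by
  rw [← Zk_zero P t]
  exact Zk_mono P hP t _ _ h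

theorem Zk_add : ∀ (t : ℕ) (M M' : (Fin t → A) → (Fin t → B) → ℝ),
    Zk P t (fun g y => M g y + M' g y) = Zk P t M + Zk P t M' := by
  intro t
  induction t with
  | zero => intro M M'; rfl
  | succ t ih =>
    intro M M'
    unfold Zk
    rw [← Finset.sum_add_distrib]
    refine Finset.sum_congr rfl fun a _ => ?_
    rw [← Finset.sum_add_distrib]
    refine Finset.sum_congr rfl fun b _ => ?_
    rw [ih (fun g y => M (Fin.cons a g) (Fin.cons b y))
      (fun g y => M' (Fin.cons a g) (Fin.cons b y))]
    ring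

theorem Zk_mul : ∀ (t : ℕ) (c : ℝ) (M : (Fin t → A) → (Fin t → B) → ℝ),
    Zk P t (fun g y => c * M g y) = c * Zk P t M := by
  intro t
  induction t with
  | zero => intro c M; rfl
  | succ t ih =>
    intro c M
    unfold Zk
    rw [Finset.mul_sum]
    refine Finset.sum_congr rfl fun a _ => ?_
    rw [Finset.mul_sum]
    refine Finset.sum_congr rfl fun b _ => ?_
    rw [ih c (fun g y => M (Fin.cons a g) (Fin.cons b y))]
    ring

theorem Zk_sum {ι : Type} (s : Finset ι) (t : ℕ) (F : ι → (Fin t → A) → (Fin t → B) → ℝ) :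
    Zk P t (fun g y => ∑ i ∈ s, F i g y) = ∑ i ∈ s, Zk P t (F i) := by
  classical
  induction s using Finset.induction_on with
  | empty => simp only [Finset.sum_empty]; exact Zk_zero P t
  | insert i s hi ih =>
    simp only [Finset.sum_insert hi]
    rw [Zk_add P t (F i) (fun g y => ∑ i ∈ s, F i g y), ih]

theorem OS_zero : ∀ t : ℕ, OS P P' t (fun _ _ => 0) = 0 := by
  intro t
  induction t with
  | zero => rfl
  | succ t ih => unfold OS; simp [ih, Zk_zero]

theorem OS_add : ∀ (t : ℕ) (M M' : (Fin t → A) → (Fin t → B) → ℝ),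
    OS P P' t (fun g y => M g y + M' g y) = OS P P' t M + OS P P' t M' := by
  intro t
  induction t with
  | zero => intro M M'; simp [OS]
  | succ t ih =>
    intro M M'
    unfold OS
    have e1 : ∀ a b, P' a b * Zk P t (fun g y => M (Fin.cons a g) (Fin.cons b y) +
        M' (Fin.cons a g) (Fin.cons b y)) =
        P' a b * Zk P t (fun g y => M (Fin.cons a g) (Fin.cons b y)) +
        P' a b * Zk P t (fun g y => M' (Fin.cons a g) (Fin.cons b y)) := by
      intro a b
      rw [Zk_add P t (fun g y => M (Fin.cons a g) (Fin.cons b y))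
        (fun g y => M' (Fin.cons a g) (Fin.cons b y))]
      ring
    have e2 : ∀ a b, P a b * OS P P' t (fun g y => M (Fin.cons a g) (Fin.cons b y) +
        M' (Fin.cons a g) (Fin.cons b y)) =
        P a b * OS P P' t (fun g y => M (Fin.cons a g) (Fin.cons b y)) +
        P a b * OS P P' t (fun g y => M' (Fin.cons a g) (Fin.cons b y)) := by
      intro a b
      rw [ih (fun g y => M (Fin.cons a g) (Fin.cons b y))
        (fun g y => M' (Fin.cons a g) (Fin.cons b y))]
      ring
    simp only [e1, e2, Finset.sum_add_distrib]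
    ring

theorem OS_mul : ∀ (t : ℕ) (c : ℝ) (M : (Fin t → A) → (Fin t → B) → ℝ),
    OS P P' t (fun g y => c * M g y) = c * OS P P' t M := by
  intro t
  induction t with
  | zero => intro c M; simp [OS]
  | succ t ih =>
    intro c M
    unfold OS
    have e1 : ∀ a b, P' a b * Zk P t (fun g y => c * M (Fin.cons a g) (Fin.cons b y)) =
        c * (P' a b * Zk P t (fun g y => M (Fin.cons a g) (Fin.cons b y))) := by
      intro a b
      rw [Zk_mul P t c (fun g y => M (Fin.cons a g) (Fin.cons b y))]
      ring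
    have e2 : ∀ a b, P a b * OS P P' t (fun g y => c * M (Fin.cons a g) (Fin.cons b y)) =
        c * (P a b * OS P P' t (fun g y => M (Fin.cons a g) (Fin.cons b y))) := by
      intro a b
      rw [ih c (fun g y => M (Fin.cons a g) (Fin.cons b y))]
      ring
    simp only [e1, e2, ← Finset.mul_sum]
    ring

theorem OS_sum {ι : Type} (s : Finset ι) (t : ℕ) (F : ι → (Fin t → A) → (Fin t → B) → ℝ) :
    OS P P' t (fun g y => ∑ i ∈ s, F i g y) = ∑ i ∈ s, OS P P' t (F i) := by
  classical
  induction s using Finset.induction_on with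
  | empty => simp only [Finset.sum_empty]; exact OS_zero P P' t
  | insert i s hi ih =>
    simp only [Finset.sum_insert hi]
    rw [OS_add P P' t (F i) (fun g y => ∑ i ∈ s, F i g y), ih]

end

/-- Jensen's inequality for `negMulLog`. -/
theorem jensen {ι : Type} [Fintype ι] (w z : ι → ℝ) (hw : ∀ i, 0 ≤ w i) (hw1 : ∑ i, w i = 1)
    (hz : ∀ i, 0 ≤ z i) : ∑ i, w i * negMulLog (z i) ≤ negMulLog (∑ i, w i * z i) := by
  have := concaveOn_negMulLog.le_map_sum (t := univ) (w := w) (p := z) (fun i _ => hw i) hw1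
    (fun i _ => hz i)
  simpa only [smul_eq_mul] using this

/-- Tensorisation. -/
theorem tens (P P' : A → B → ℝ) (hP : ∀ a b, 0 ≤ P a b) (nA nB lam K Λ : ℝ) (hnA : 0 < nA)
    (hnB : 0 < nB) (hA : ∑ _a : A, 1 / nA = 1) (hB : ∑ _b : B, 1 / nB = 1) (hl0 : 0 ≤ lam)
    (hl1 : lam ≤ 1)
    (LI : ∀ (α : A → ℝ) (β : B → ℝ), (∀ a, 0 ≤ α a) → (∀ b, 0 ≤ β b) →
      ∑ a, ∑ b, P a b * negMulLog (α a * β b) +
        Λ * (∑ a, ∑ b, P a b * (α a * β b) - K * ∑ a, ∑ b, P' a b * (α a * β b)) ≤
      lam * ∑ b, 1 / nB * negMulLog ((∑ a, nB * P a b * α a) * β b) +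
        (1 - lam) * ∑ a, 1 / nA * negMulLog (α a * ∑ b, nA * P a b * β b)) :
    ∀ (t : ℕ) (u : (Fin t → A) → ℝ) (v : (Fin t → B) → ℝ), (∀ g, 0 ≤ u g) → (∀ y, 0 ≤ v y) →
      Zk P t (fun g y => negMulLog (u g * v y)) +
        Λ * (t * Zk P t (fun g y => u g * v y) - K * OS P P' t (fun g y => u g * v y)) ≤
      negMulLog (Zk P t (fun g y => u g * v y)) := by
  intro t
  induction t with
  | zero => intro u v hu hv; simp [Zk, OS]
  | succ t ih =>
    intro u v hu hv
    set z : A → B → ℝ := fun a b => Zk P t (fun g y => u (Fin.cons a g) * v (Fin.cons b y)) with hz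
    set o : A → B → ℝ := fun a b => OS P P' t (fun g y => u (Fin.cons a g) * v (Fin.cons b y))
      with ho
    have hz0 : ∀ a b, 0 ≤ z a b := fun a b => Zk_nonneg P hP t _ fun g y => mul_nonneg (hu _) (hv _)
    have hZ : Zk P (t + 1) (fun g y => u g * v y) = ∑ a, ∑ b, P a b * z a b := rfl
    have hO : OS P P' (t + 1) (fun g y => u g * v y) = ∑ a, ∑ b, P' a b * z a b +
      ∑ a, ∑ b, P a b * o a b := rfl
    have hφ : Zk P (t + 1) (fun g y => negMulLog (u g * v y)) =
      ∑ a, ∑ b, P a b * Zk P t (fun g y => negMulLog (u (Fin.cons a g) * v (Fin.cons b y))) := rfl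
    set ub : B → (Fin t → A) → ℝ := fun b g => ∑ a, nB * P a b * u (Fin.cons a g) with hub
    set va : A → (Fin t → B) → ℝ := fun a y => ∑ b, nA * P a b * v (Fin.cons b y) with hva
    have hub0 : ∀ b g, 0 ≤ ub b g := fun b g => Finset.sum_nonneg fun a _ =>
      mul_nonneg (mul_nonneg hnB.le (hP a b)) (hu _)
    have hva0 : ∀ a y, 0 ≤ va a y := fun a y => Finset.sum_nonneg fun b _ =>
      mul_nonneg (mul_nonneg hnA.le (hP a b)) (hv _)
    -- bilinearity
    have f1 : ∀ b, (fun (g : Fin t → A) (y : Fin t → B) => ub b g * v (Fin.cons b y)) =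
        fun g y => ∑ a, nB * P a b * (u (Fin.cons a g) * v (Fin.cons b y)) := by
      intro b
      funext g y
      simp only [hub]
      rw [Finset.sum_mul]
      exact Finset.sum_congr rfl fun a _ => by ring
    have f2 : ∀ a, (fun (g : Fin t → A) (y : Fin t → B) => u (Fin.cons a g) * va a y) =
        fun g y => ∑ b, nA * P a b * (u (Fin.cons a g) * v (Fin.cons b y)) := by
      intro a
      funext g y
      simp only [hva]
      rw [Finset.mul_sum]
      exact Finset.sum_congr rfl fun b _ => by ring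
    have e1 : ∀ b, Zk P t (fun g y => ub b g * v (Fin.cons b y)) = ∑ a, nB * P a b * z a b := by
      intro b
      rw [f1 b, Zk_sum P univ t
        (fun a g y => nB * P a b * (u (Fin.cons a g) * v (Fin.cons b y)))]
      exact Finset.sum_congr rfl fun a _ => Zk_mul P t _ _
    have e2 : ∀ a, Zk P t (fun g y => u (Fin.cons a g) * va a y) = ∑ b, nA * P a b * z a b := by
      intro a
      rw [f2 a, Zk_sum P univ t
        (fun b g y => nA * P a b * (u (Fin.cons a g) * v (Fin.cons b y)))]
      exact Finset.sum_congr rfl fun b _ => Zk_mul P t _ _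
    have e3 : ∀ b, OS P P' t (fun g y => ub b g * v (Fin.cons b y)) =
        ∑ a, nB * P a b * o a b := by
      intro b
      rw [f1 b, OS_sum P P' univ t
        (fun a g y => nB * P a b * (u (Fin.cons a g) * v (Fin.cons b y)))]
      exact Finset.sum_congr rfl fun a _ => OS_mul P P' t _ _
    have e4 : ∀ a, OS P P' t (fun g y => u (Fin.cons a g) * va a y) =
        ∑ b, nA * P a b * o a b := by
      intro a
      rw [f2 a, OS_sum P P' univ t
        (fun b g y => nA * P a b * (u (Fin.cons a g) * v (Fin.cons b y)))]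
      exact Finset.sum_congr rfl fun b _ => OS_mul P P' t _ _
    -- averaging
    have m1 : ∀ x : A → B → ℝ, ∑ b, 1 / nB * ∑ a, nB * P a b * x a b =
        ∑ a, ∑ b, P a b * x a b := by
      intro x
      rw [Finset.sum_comm (f := fun a b => P a b * x a b)]
      refine Finset.sum_congr rfl fun b _ => ?_
      rw [Finset.mul_sum]
      refine Finset.sum_congr rfl fun a _ => ?_
      field_simp
    have m2 : ∀ x : A → B → ℝ, ∑ a, 1 / nA * ∑ b, nA * P a b * x a b =
        ∑ a, ∑ b, P a b * x a b := by
      intro x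
      refine Finset.sum_congr rfl fun a _ => ?_
      rw [Finset.mul_sum]
      refine Finset.sum_congr rfl fun b _ => ?_
      field_simp
    set Z := ∑ a, ∑ b, P a b * z a b with hZd
    set O1 := ∑ a, ∑ b, P a b * o a b with hO1d
    -- Jensen
    have j1 : ∑ b, 1 / nB * negMulLog (Zk P t (fun g y => ub b g * v (Fin.cons b y))) ≤
        negMulLog Z := by
      have := jensen (fun _ : B => 1 / nB) (fun b => Zk P t (fun g y => ub b g * v (Fin.cons b y)))
        (fun _ => by positivity) hB (fun b => Zk_nonneg P hP t _ fun g y =>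
          mul_nonneg (hub0 _ _) (hv _))
      have e : ∑ b, 1 / nB * Zk P t (fun g y => ub b g * v (Fin.cons b y)) = Z := by
        rw [Finset.sum_congr rfl fun b _ => by rw [e1 b]]
        exact m1 z
      rw [e] at this
      exact this
    have j2 : ∑ a, 1 / nA * negMulLog (Zk P t (fun g y => u (Fin.cons a g) * va a y)) ≤
        negMulLog Z := by
      have := jensen (fun _ : A => 1 / nA) (fun a => Zk P t (fun g y => u (Fin.cons a g) * va a y))
        (fun _ => by positivity) hA (fun a => Zk_nonneg P hP t _ fun g y =>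
          mul_nonneg (hu _) (hva0 _ _))
      have e : ∑ a, 1 / nA * Zk P t (fun g y => u (Fin.cons a g) * va a y) = Z := by
        rw [Finset.sum_congr rfl fun a _ => by rw [e2 a]]
        exact m2 z
      rw [e] at this
      exact this
    -- induction hypothesis
    have i1 : ∑ b, 1 / nB * Zk P t (fun g y => negMulLog (ub b g * v (Fin.cons b y))) +
        Λ * (t * Z - K * O1) ≤
        ∑ b, 1 / nB * negMulLog (Zk P t (fun g y => ub b g * v (Fin.cons b y))) := by
      have h1 : ∀ b, 1 / nB * (Zk P t (fun g y => negMulLog (ub b g * v (Fin.cons b y))) +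
          Λ * (t * (∑ a, nB * P a b * z a b) - K * ∑ a, nB * P a b * o a b)) ≤
          1 / nB * negMulLog (Zk P t (fun g y => ub b g * v (Fin.cons b y))) := by
        intro b
        refine mul_le_mul_of_nonneg_left ?_ (by positivity)
        have := ih (ub b) (fun y => v (Fin.cons b y)) (hub0 b) (fun y => hv _)
        rw [e3 b] at this
        have h2 := e1 b
        rw [← h2]
        exact this
      refine le_trans (le_of_eq ?_) (Finset.sum_le_sum fun b _ => h1 b)
      have h3 : ∀ b, 1 / nB * (Zk P t (fun g y => negMulLog (ub b g * v (Fin.cons b y))) +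
          Λ * (t * (∑ a, nB * P a b * z a b) - K * ∑ a, nB * P a b * o a b)) =
          1 / nB * Zk P t (fun g y => negMulLog (ub b g * v (Fin.cons b y))) +
          ((Λ * t) * (1 / nB * ∑ a, nB * P a b * z a b) -
            (Λ * K) * (1 / nB * ∑ a, nB * P a b * o a b)) := by
        intro b; ring
      have k1 : ∑ b, Λ * t * (1 / nB * ∑ a, nB * P a b * z a b) = Λ * t * Z := by
        rw [← Finset.mul_sum, m1 z]
      have k2 : ∑ b, Λ * K * (1 / nB * ∑ a, nB * P a b * o a b) = Λ * K * O1 := by
        rw [← Finset.mul_sum, m1 o]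
      rw [Finset.sum_congr rfl fun b _ => h3 b, Finset.sum_add_distrib, Finset.sum_sub_distrib,
        k1, k2]
      ring
    have i2 : ∑ a, 1 / nA * Zk P t (fun g y => negMulLog (u (Fin.cons a g) * va a y)) +
        Λ * (t * Z - K * O1) ≤
        ∑ a, 1 / nA * negMulLog (Zk P t (fun g y => u (Fin.cons a g) * va a y)) := by
      have h1 : ∀ a, 1 / nA * (Zk P t (fun g y => negMulLog (u (Fin.cons a g) * va a y)) +
          Λ * (t * (∑ b, nA * P a b * z a b) - K * ∑ b, nA * P a b * o a b)) ≤
          1 / nA * negMulLog (Zk P t (fun g y => u (Fin.cons a g) * va a y)) := by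
        intro a
        refine mul_le_mul_of_nonneg_left ?_ (by positivity)
        have := ih (fun g => u (Fin.cons a g)) (va a) (fun g => hu _) (hva0 a)
        rw [e4 a] at this
        have h2 := e2 a
        rw [← h2]
        exact this
      refine le_trans (le_of_eq ?_) (Finset.sum_le_sum fun a _ => h1 a)
      have h3 : ∀ a, 1 / nA * (Zk P t (fun g y => negMulLog (u (Fin.cons a g) * va a y)) +
          Λ * (t * (∑ b, nA * P a b * z a b) - K * ∑ b, nA * P a b * o a b)) =
          1 / nA * Zk P t (fun g y => negMulLog (u (Fin.cons a g) * va a y)) +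
          ((Λ * t) * (1 / nA * ∑ b, nA * P a b * z a b) -
            (Λ * K) * (1 / nA * ∑ b, nA * P a b * o a b)) := by
        intro a; ring
      have k1 : ∑ a, Λ * t * (1 / nA * ∑ b, nA * P a b * z a b) = Λ * t * Z := by
        rw [← Finset.mul_sum, m2 z]
      have k2 : ∑ a, Λ * K * (1 / nA * ∑ b, nA * P a b * o a b) = Λ * K * O1 := by
        rw [← Finset.mul_sum, m2 o]
      rw [Finset.sum_congr rfl fun a _ => h3 a, Finset.sum_add_distrib, Finset.sum_sub_distrib,
        k1, k2]
      ring
    -- the local inequality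
    have l1 : ∑ a, ∑ b, P a b * Zk P t (fun g y => negMulLog (u (Fin.cons a g) * v (Fin.cons b y)))
        + Λ * (Z - K * ∑ a, ∑ b, P' a b * z a b) ≤
        lam * ∑ b, 1 / nB * Zk P t (fun g y => negMulLog (ub b g * v (Fin.cons b y))) +
        (1 - lam) * ∑ a, 1 / nA * Zk P t (fun g y => negMulLog (u (Fin.cons a g) * va a y)) := by
      have h1 := Zk_mono P hP t _ _ fun g y => LI (fun a => u (Fin.cons a g))
        (fun b => v (Fin.cons b y)) (fun a => hu _) (fun b => hv _)
      have g1 : ∀ (R : A → B → ℝ) (F : A → B → (Fin t → A) → (Fin t → B) → ℝ),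
          Zk P t (fun g y => ∑ a, ∑ b, R a b * F a b g y) =
            ∑ a, ∑ b, R a b * Zk P t (F a b) := by
        intro R F
        rw [Zk_sum P univ t (fun a g y => ∑ b, R a b * F a b g y)]
        refine Finset.sum_congr rfl fun a _ => ?_
        rw [Zk_sum P univ t (fun b g y => R a b * F a b g y)]
        exact Finset.sum_congr rfl fun b _ => Zk_mul P t _ _
      have g2 : ∀ {ι : Type} [Fintype ι] (c : ℝ) (F : ι → (Fin t → A) → (Fin t → B) → ℝ),
          Zk P t (fun g y => ∑ i, c * F i g y) = ∑ i, c * Zk P t (F i) := by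
        intro ι _ c F
        rw [Zk_sum P univ t (fun i g y => c * F i g y)]
        exact Finset.sum_congr rfl fun b _ => Zk_mul P t _ _
      refine le_trans (le_of_eq ?_) (h1.trans (le_of_eq ?_))
      · rw [Zk_add P t (fun g y => ∑ a, ∑ b, P a b *
            negMulLog (u (Fin.cons a g) * v (Fin.cons b y)))
          (fun g y => Λ * (∑ a, ∑ b, P a b * (u (Fin.cons a g) * v (Fin.cons b y)) -
            K * ∑ a, ∑ b, P' a b * (u (Fin.cons a g) * v (Fin.cons b y)))),
          g1 P (fun a b g y => negMulLog (u (Fin.cons a g) * v (Fin.cons b y))),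
          Zk_mul P t Λ (fun g y => ∑ a, ∑ b, P a b * (u (Fin.cons a g) * v (Fin.cons b y)) -
            K * ∑ a, ∑ b, P' a b * (u (Fin.cons a g) * v (Fin.cons b y)))]
        have e5 : (fun (g : Fin t → A) (y : Fin t → B) =>
            ∑ a, ∑ b, P a b * (u (Fin.cons a g) * v (Fin.cons b y)) -
            K * ∑ a, ∑ b, P' a b * (u (Fin.cons a g) * v (Fin.cons b y))) =
            fun g y => (∑ a, ∑ b, P a b * (u (Fin.cons a g) * v (Fin.cons b y))) +
              (-K) * ∑ a, ∑ b, P' a b * (u (Fin.cons a g) * v (Fin.cons b y)) := by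
          funext g y; ring
        rw [e5, Zk_add P t (fun g y => ∑ a, ∑ b, P a b * (u (Fin.cons a g) * v (Fin.cons b y)))
          (fun g y => (-K) * ∑ a, ∑ b, P' a b * (u (Fin.cons a g) * v (Fin.cons b y))),
          g1 P (fun a b g y => u (Fin.cons a g) * v (Fin.cons b y)),
          Zk_mul P t (-K) (fun g y => ∑ a, ∑ b, P' a b * (u (Fin.cons a g) * v (Fin.cons b y))),
          g1 P' (fun a b g y => u (Fin.cons a g) * v (Fin.cons b y))]
        ring
      · rw [Zk_add P t (fun g y => lam * ∑ b, 1 / nB *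
            negMulLog ((∑ a, nB * P a b * u (Fin.cons a g)) * v (Fin.cons b y)))
          (fun g y => (1 - lam) * ∑ a, 1 / nA *
            negMulLog (u (Fin.cons a g) * ∑ b, nA * P a b * v (Fin.cons b y))),
          Zk_mul P t lam (fun g y => ∑ b, 1 / nB *
            negMulLog ((∑ a, nB * P a b * u (Fin.cons a g)) * v (Fin.cons b y))),
          Zk_mul P t (1 - lam) (fun g y => ∑ a, 1 / nA *
            negMulLog (u (Fin.cons a g) * ∑ b, nA * P a b * v (Fin.cons b y))),
          g2 (1 / nB) (fun b g y => negMulLog ((∑ a, nB * P a b * u (Fin.cons a g)) *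
            v (Fin.cons b y))),
          g2 (1 / nA) (fun a g y => negMulLog (u (Fin.cons a g) *
            ∑ b, nA * P a b * v (Fin.cons b y)))]
    rw [hZ, hO, hφ]
    have q1 := mul_le_mul_of_nonneg_left (i1.trans j1) hl0
    have q2 := mul_le_mul_of_nonneg_left (i2.trans j2) (by linarith : (0 : ℝ) ≤ 1 - lam)
    push_cast
    nlinarith [l1, q1, q2]

end Pool.Agent.L5helper35.LPS
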